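import Pool.Agent.K9h35.SQ.Cx

/-!
# The universal cover of a complex
-/

set_option autoImplicit false

namespace Pool.Agent.K9h35.SQ

variable {V : Type} (K : Cx V) (x0 : V)

/-- paths with the origin `x0` -/
def Pth : Type := {l : List V // IsP K.graph.Adj x0 l}

/-- homotopy of paths -/
def pthSetoid : Setoid (Pth K x0) where
  r l l' := Hmt K x0 l.1 l'.1
  iseqv := ⟨fun l => Hmt.refl _ _, fun h => h.symm, fun h h' => h.trans h'⟩

/-- the vertices of the universal cover -/
def UC : Type := Quotient (pthSetoid K x0)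

variable {K x0}

/-- the vertex of the universal cover given by a path -/
def mk (l : List V) (h : IsP K.graph.Adj x0 l) : UC K x0 := Quotient.mk (pthSetoid K x0) ⟨l, h⟩

theorem mk_eq {l l' : List V} {h : IsP K.graph.Adj x0 l} {h' : IsP K.graph.Adj x0 l'} :
    mk l h = mk l' h' ↔ Hmt K x0 l l' :=
  ⟨fun e => Quotient.exact (s := pthSetoid K x0) e, fun e => Quotient.sound (s := pthSetoid K x0) e⟩

theorem exists_rep (u : UC K x0) : ∃ l h, u = mk l h := by
  induction u using Quotient.inductionOn with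
  | h l => exact ⟨l.1, l.2, rfl⟩

/-- the covering map -/
def fin : UC K x0 → V := Quotient.lift (fun l => endp x0 l.1) fun _ _ h => Hmt.endp_eq h

@[simp] theorem fin_mk (l : List V) (h : IsP K.graph.Adj x0 l) : fin (mk l h) = endp x0 l := rfl

/-- adjacent vertices -/
def UAdj (u v : UC K x0) : Prop :=
  ∃ (l : List V) (y : V) (h : IsP K.graph.Adj x0 l) (h' : IsP K.graph.Adj x0 (l ++ [y])),
    u = mk l h ∧ v = mk (l ++ [y]) h'

theorem isP_snoc {A : V → V → Prop} {x y : V} {l : List V} :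
    IsP A x (l ++ [y]) ↔ IsP A x l ∧ A (endp x l) y := by
  rw [isP_append]
  simp [IsP]

theorem endp_snoc {x y : V} {l : List V} : endp x (l ++ [y]) = y := by
  rw [endp_append]; rfl

theorem UAdj.fin_adj {u v : UC K x0} (h : UAdj u v) : K.graph.Adj (fin u) (fin v) := by
  obtain ⟨l, y, h1, h2, rfl, rfl⟩ := h
  rw [fin_mk, fin_mk, endp_snoc]
  exact (isP_snoc.1 h2).2

/-- every representative can be used -/
theorem UAdj.rep {u v : UC K x0} (h : UAdj u v) (l : List V) (hl : IsP K.graph.Adj x0 l)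
    (hu : u = mk l hl) : ∃ h', v = mk (l ++ [fin v]) h' := by
  obtain ⟨l', y, h1, h2, rfl, rfl⟩ := h
  have h3 : Hmt K x0 l' l := mk_eq.1 hu
  have h4 : fin (mk (l' ++ [y]) h2) = y := by rw [fin_mk, endp_snoc]
  rw [h4]
  have h5 := h3.append_right [y]
  exact ⟨h5.isP_iff.1 h2, mk_eq.2 h5⟩

theorem uadj_symm {u v : UC K x0} (h : UAdj u v) : UAdj v u := by
  obtain ⟨l, y, h1, h2, rfl, rfl⟩ := h
  have h3 := isP_snoc.1 h2
  have h4 : IsP K.graph.Adj x0 (l ++ [y] ++ [endp x0 l]) := by
    rw [isP_snoc, endp_snoc]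
    exact ⟨h2, h3.2.symm⟩
  refine ⟨l ++ [y], endp x0 l, h2, h4, rfl, mk_eq.2 ?_⟩
  rw [List.append_assoc]
  have h5 : Hmt K x0 (l ++ ([y] ++ [endp x0 l])) (l ++ []) := Hmt.append_left l (Hmt.back h3.2)
  rw [List.append_nil] at h5
  exact h5.symm

/-- the graph of the universal cover -/
def ugraph : SimpleGraph (UC K x0) where
  Adj := UAdj
  symm := ⟨fun _ _ h => uadj_symm h⟩
  loopless := ⟨fun u h => (K.graph.loopless).1 _ h.fin_adj⟩

variable (K x0)

/-- the universal cover -/
def cov : Cx (UC K x0) where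
  graph := ugraph
  cell u c := IsP (ugraph (K := K) (x0 := x0)).Adj u c ∧ endp u c = u ∧ K.cell (fin u) (c.map fin)
  cell_path u c h := ⟨h.1, h.2.1⟩
  cell_rot u v c h := by
    obtain ⟨h1, h2, h3⟩ := h
    have h4 : endp v c = u := h2
    refine ⟨?_, ?_, ?_⟩
    · rw [isP_snoc, h4]
      exact ⟨h1.2, h1.1⟩
    · rw [endp_snoc]
    · rw [List.map_append]
      exact K.cell_rot _ _ _ h3
  cell_inv u c h := by
    obtain ⟨h1, h2, h3⟩ := h
    refine ⟨?_, ?_, ?_⟩
    · have := isP_inv (A := (ugraph (K := K) (x0 := x0)).Adj) (fun _ _ h => h.symm) u c h1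
      rwa [h2] at this
    · have := endp_inv u c
      rwa [h2] at this
    · rw [← inv_map]
      exact K.cell_inv _ _ h3

variable {K x0}

theorem cov_adj {u v : UC K x0} : (cov K x0).graph.Adj u v ↔ UAdj u v := Iff.rfl

theorem uadj_inj {u v w : UC K x0} (h : UAdj u v) (h' : UAdj u w) (e : fin v = fin w) : v = w := by
  obtain ⟨l, hl, rfl⟩ := exists_rep u
  obtain ⟨h1, h2⟩ := h.rep l hl rfl
  obtain ⟨h3, h4⟩ := h'.rep l hl rfl
  rw [h2, h4]
  exact mk_eq.2 (by rw [e]; exact Hmt.refl _ _)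

theorem cov_immersion : IsImmersion (cov K x0) K fin where
  adj _ _ h := UAdj.fin_adj h
  inj _ _ _ h h' e := uadj_inj h h' e
  cell _ _ h := h.2.2

/-- the end of a path in the universal cover -/
theorem endp_cov (c : List (UC K x0)) : ∀ (u : UC K x0) (l : List V) (hl : IsP K.graph.Adj x0 l),
    u = mk l hl → IsP (cov K x0).graph.Adj u c →
      ∃ h, endp u c = mk (l ++ c.map fin) h := by
  induction c with
  | nil =>
    intro u l hl hu _
    refine ⟨by simpa using hl, ?_⟩
    rw [hu]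
    exact mk_eq.2 (by simp only [List.map_nil, List.append_nil]; exact Hmt.refl _ _)
  | cons v c ih =>
    intro u l hl hu hp
    obtain ⟨h1, h2⟩ := UAdj.rep (cov_adj.1 hp.1) l hl hu
    obtain ⟨h3, h4⟩ := ih v _ h1 h2 hp.2
    have e : l ++ [fin v] ++ c.map fin = l ++ (v :: c).map fin := by simp
    refine ⟨by rw [← e]; exact h3, ?_⟩
    have h5 : endp u (v :: c) = endp v c := rfl
    rw [h5, h4]
    exact mk_eq.2 (by rw [e]; exact Hmt.refl _ _)

/-- lifting of paths -/
theorem lift_path (m : List V) : ∀ u : UC K x0, IsP K.graph.Adj (fin u) m →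
    ∃ c, IsP (cov K x0).graph.Adj u c ∧ c.map fin = m := by
  induction m with
  | nil => exact fun u _ => ⟨[], trivial, rfl⟩
  | cons y m ih =>
    intro u hp
    obtain ⟨l, hl, rfl⟩ := exists_rep u
    have h1 : IsP K.graph.Adj x0 (l ++ [y]) := isP_snoc.2 ⟨hl, hp.1⟩
    have h2 : fin (mk (l ++ [y]) h1) = y := by rw [fin_mk, endp_snoc]
    obtain ⟨c, hc, hm⟩ := ih (mk (l ++ [y]) h1) (by rw [h2]; exact hp.2)
    refine ⟨mk (l ++ [y]) h1 :: c, ⟨⟨l, y, hl, h1, rfl, rfl⟩, hc⟩, ?_⟩
    rw [List.map_cons, h2, hm]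

/-- uniqueness of lifts -/
theorem lift_unique (c : List (UC K x0)) : ∀ (u : UC K x0) (c' : List (UC K x0)),
    IsP (cov K x0).graph.Adj u c → IsP (cov K x0).graph.Adj u c' → c.map fin = c'.map fin →
      c = c' := by
  induction c with
  | nil =>
    intro u c' _ _ h
    cases c' with
    | nil => rfl
    | cons _ _ => simp at h
  | cons v c ih =>
    intro u c' h1 h2 h
    cases c' with
    | nil => simp at h
    | cons v' c' =>
      rw [List.map_cons, List.map_cons, List.cons.injEq] at h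
      have e : v = v' := uadj_inj (cov_adj.1 h1.1) (cov_adj.1 h2.1) h.1
      subst e
      rw [ih v c' h1.2 h2.2 h.2]

/-- lifting of homotopies -/
theorem lift_homotopy {x : V} {m m' : List V} (h : Hmt K x m m') : ∀ (u : UC K x0), fin u = x →
    ∀ c c' : List (UC K x0), IsP (cov K x0).graph.Adj u c → c.map fin = m →
      IsP (cov K x0).graph.Adj u c' → c'.map fin = m' → Hmt (cov K x0) u c c' := by
  induction h with
  | refl x l =>
    intro u _ c c' h1 h2 h3 h4
    rw [lift_unique c u c' h1 h3 (h2.trans h4.symm)]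
    exact Hmt.refl _ _
  | symm _ ih =>
    intro u hu c c' h1 h2 h3 h4
    exact (ih u hu c' c h3 h4 h1 h2).symm
  | @trans x l l' l'' h h' ih1 ih2 =>
    intro u hu c c' h1 h2 h3 h4
    have h5 : IsP K.graph.Adj (fin u) l := by
      rw [← h2]
      exact isP_map fin (fun _ _ h => UAdj.fin_adj h) u c h1
    have h6 : IsP K.graph.Adj (fin u) l' := by
      rw [hu] at h5 ⊢
      exact h.isP_iff.1 h5
    obtain ⟨d, h7, h8⟩ := lift_path l' u h6
    exact (ih1 u hu c d h1 h2 h7 h8).trans (ih2 u hu d c' h7 h8 h3 h4)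
  | @back x v l h =>
    intro u hu c c' h1 h2 h3 h4
    match c, h1, h2 with
    | [], _, h2 => simp at h2
    | [_], _, h2 => simp at h2
    | a :: b :: d, h1, h2 =>
      simp only [List.map_cons, List.cons.injEq] at h2
      have e : b = u := uadj_inj (cov_adj.1 h1.2.1) (uadj_symm (cov_adj.1 h1.1)) (by rw [h2.2.1, hu])
      subst e
      rw [lift_unique d _ c' h1.2.2 h3 (h2.2.2.trans h4.symm)]
      exact Hmt.back h1.1
  | @cell x d l h =>
    intro u hu c c' h1 h2 h3 h4
    obtain ⟨c1, c2, rfl, h5, h6⟩ := List.map_eq_append_iff.1 h2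
    rw [isP_append] at h1
    obtain ⟨l0, hl0, rfl⟩ := exists_rep u
    have h7 : endp (mk l0 hl0) c1 = mk l0 hl0 := by
      obtain ⟨h8, h9⟩ := endp_cov c1 _ l0 hl0 rfl h1.1
      rw [h9]
      refine mk_eq.2 ?_
      have h10 : Hmt K (endp x0 l0) d [] := by
        have h11 : endp x0 l0 = x := hu
        rw [h11]
        have := Hmt.cell (l := []) h
        rwa [List.append_nil] at this
      rw [h5]
      have := Hmt.append_left l0 h10
      rwa [List.append_nil] at this
    have h8 : (cov K x0).cell (mk l0 hl0) c1 := by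
      refine ⟨h1.1, h7, ?_⟩
      rw [hu, h5]
      exact h
    rw [h7] at h1
    rw [lift_unique c2 _ c' h1.2 h3 (h6.trans h4.symm)]
    exact Hmt.cell h8
  | @cons x v l l' h ih =>
    intro u hu c c' h1 h2 h3 h4
    match c, h1, h2, c', h3, h4 with
    | [], _, h2, _, _, _ => simp at h2
    | _ :: _, _, _, [], _, h4 => simp at h4
    | a :: c, h1, h2, a' :: c', h3, h4 =>
      simp only [List.map_cons, List.cons.injEq] at h2 h4
      have e : a = a' := uadj_inj (cov_adj.1 h1.1) (cov_adj.1 h3.1) (by rw [h2.1, h4.1])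
      subst e
      exact (ih a h2.1 c c' h1.2 h2.2 h3.2 h4.2).cons

/-- the universal cover is simply connected -/
theorem cov_simplyConnected : SimplyConnected (cov K x0) := by
  have hbase : ∀ u : UC K x0, ∃ c, IsP (cov K x0).graph.Adj (mk [] trivial) c ∧
      endp (mk [] trivial) c = u := by
    intro u
    obtain ⟨l, hl, rfl⟩ := exists_rep u
    obtain ⟨c, h1, h2⟩ := lift_path (K := K) (x0 := x0) l (mk [] trivial) hl
    refine ⟨c, h1, ?_⟩
    obtain ⟨h3, h4⟩ := endp_cov c _ [] trivial rfl h1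
    rw [h4]
    exact mk_eq.2 (by rw [h2]; exact Hmt.refl _ _)
  refine ⟨⟨mk [] trivial⟩, fun x y => ?_, fun u c h1 h2 => ?_⟩
  · obtain ⟨c, h1, h2⟩ := hbase x
    obtain ⟨d, h3, h4⟩ := hbase y
    refine ⟨inv (mk [] trivial) c ++ d, ?_, ?_⟩
    · rw [isP_append]
      rw [← h2, endp_inv]
      exact ⟨isP_inv (fun _ _ h => h.symm) _ _ h1, h3⟩
    · rw [endp_append, ← h2, endp_inv, h4]
  · obtain ⟨l, hl, rfl⟩ := exists_rep u
    obtain ⟨h3, h4⟩ := endp_cov c _ l hl rfl h1
    rw [h4] at h2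
    have h5 : Hmt K x0 (l ++ c.map fin) (l ++ []) := by
      rw [List.append_nil]
      exact mk_eq.1 h2
    have h6 := Hmt.cancel_left hl h5
    exact lift_homotopy h6 _ rfl c [] h1 rfl trivial rfl

end Pool.Agent.K9h35.SQ
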