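import Mathlib

/-!
# Combinatorial complexes of dimension two: paths and homotopies
-/

set_option autoImplicit false

namespace Pool.Agent.K9h35.SQ

/-- `l` is the list of the further vertices of a path which starts at `x` -/
def IsP {V : Type} (A : V → V → Prop) : V → List V → Prop
  | _, [] => True
  | x, v :: l => A x v ∧ IsP A v l

/-- the end of a path -/
def endp {V : Type} : V → List V → V
  | x, [] => x
  | _, v :: l => endp v l

/-- the inverse path -/
def inv {V : Type} : V → List V → List V
  | _, [] => []
  | x, v :: l => inv v l ++ [x]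

section lists

variable {V W : Type}

theorem isP_append (A : V → V → Prop) (x : V) (l m : List V) :
    IsP A x (l ++ m) ↔ IsP A x l ∧ IsP A (endp x l) m := by
  induction l generalizing x with
  | nil => simp [IsP, endp]
  | cons v l ih => simp only [List.cons_append, IsP, endp, ih, and_assoc]

theorem endp_append (x : V) (l m : List V) : endp x (l ++ m) = endp (endp x l) m := by
  induction l generalizing x with
  | nil => rfl
  | cons v l ih => simp only [List.cons_append, endp, ih]

theorem endp_inv (x : V) (l : List V) : endp (endp x l) (inv x l) = x := by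
  cases l with
  | nil => rfl
  | cons v l => simp only [inv, endp_append, endp]

theorem isP_inv {A : V → V → Prop} (hA : ∀ u v, A u v → A v u) (x : V) (l : List V)
    (h : IsP A x l) : IsP A (endp x l) (inv x l) := by
  induction l generalizing x with
  | nil => trivial
  | cons v l ih =>
    simp only [inv, endp]
    rw [isP_append, endp_inv]
    exact ⟨ih v h.2, hA _ _ h.1, trivial⟩

theorem length_inv (x : V) (l : List V) : (inv x l).length = l.length := by
  induction l generalizing x with
  | nil => rfl
  | cons v l ih => simp [inv, ih]

theorem endp_map (f : V → W) (x : V) (l : List V) : endp (f x) (l.map f) = f (endp x l) := by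
  induction l generalizing x with
  | nil => rfl
  | cons v l ih => exact ih v

theorem inv_map (f : V → W) (x : V) (l : List V) : inv (f x) (l.map f) = (inv x l).map f := by
  induction l generalizing x with
  | nil => rfl
  | cons v l ih =>
    simp only [List.map_cons, inv, List.map_append, List.map_nil, ih]

theorem isP_map {A : V → V → Prop} {B : W → W → Prop} (f : V → W) (hf : ∀ u v, A u v → B (f u) (f v))
    (x : V) (l : List V) (h : IsP A x l) : IsP B (f x) (l.map f) := by
  induction l generalizing x with
  | nil => trivial
  | cons v l ih => exact ⟨hf _ _ h.1, ih v h.2⟩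

theorem isP_mono {A B : V → V → Prop} (hf : ∀ u v, A u v → B u v) (x : V) (l : List V)
    (h : IsP A x l) : IsP B x l := by
  induction l generalizing x with
  | nil => trivial
  | cons v l ih => exact ⟨hf _ _ h.1, ih v h.2⟩

end lists

/-- A combinatorial complex of dimension two: a simple graph and a set of closed paths (the attaching
paths of the two-cells), which is invariant under rotation and inversion. The closed path from `x` to
`x` with the further vertices `c` (the last one is `x`) is in the set if `cell x c`. -/
structure Cx (V : Type) where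
  graph : SimpleGraph V
  cell : V → List V → Prop
  cell_path : ∀ x c, cell x c → IsP graph.Adj x c ∧ endp x c = x
  cell_rot : ∀ x v c, cell x (v :: c) → cell v (c ++ [v])
  cell_inv : ∀ x c, cell x c → cell x (inv x c)

/-- homotopies of paths with the origin `x`: deletion and insertion of the closed paths `x, v, x` and
of the attaching paths of two-cells -/
inductive Hmt {V : Type} (X : Cx V) : V → List V → List V → Prop
  | refl (x : V) (l : List V) : Hmt X x l l
  | symm {x : V} {l l' : List V} : Hmt X x l l' → Hmt X x l' l
  | trans {x : V} {l l' l'' : List V} : Hmt X x l l' → Hmt X x l' l'' → Hmt X x l l''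
  | back {x v : V} {l : List V} : X.graph.Adj x v → Hmt X x (v :: x :: l) l
  | cell {x : V} {c l : List V} : X.cell x c → Hmt X x (c ++ l) l
  | cons {x v : V} {l l' : List V} : Hmt X v l l' → Hmt X x (v :: l) (v :: l')

section homotopy

variable {V W : Type} {X : Cx V}

theorem Hmt.isP_iff {x : V} {l l' : List V} (h : Hmt X x l l') :
    IsP X.graph.Adj x l ↔ IsP X.graph.Adj x l' := by
  induction h with
  | refl => exact Iff.rfl
  | symm _ ih => exact ih.symm
  | trans _ _ ih1 ih2 => exact ih1.trans ih2
  | back h =>
    simp only [IsP]
    exact ⟨fun h1 => h1.2.2, fun h1 => ⟨h, h.symm, h1⟩⟩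
  | @cell x c l h =>
    have := X.cell_path _ _ h
    rw [isP_append, this.2]
    exact ⟨fun h1 => h1.2, fun h1 => ⟨this.1, h1⟩⟩
  | cons _ ih =>
    simp only [IsP, ih]

theorem Hmt.endp_eq {x : V} {l l' : List V} (h : Hmt X x l l') : endp x l = endp x l' := by
  induction h with
  | refl => rfl
  | symm _ ih => exact ih.symm
  | trans _ _ ih1 ih2 => exact ih1.trans ih2
  | back h => rfl
  | @cell x c l h =>
    rw [endp_append, (X.cell_path _ _ h).2]
  | cons _ ih => exact ih

theorem Hmt.append_right {x : V} {l l' : List V} (h : Hmt X x l l') (m : List V) :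
    Hmt X x (l ++ m) (l' ++ m) := by
  induction h with
  | refl x l => exact Hmt.refl _ _
  | symm _ ih => exact ih.symm
  | trans _ _ ih1 ih2 => exact ih1.trans ih2
  | back h => exact Hmt.back h
  | @cell x c l h =>
    rw [List.append_assoc]
    exact Hmt.cell h
  | cons _ ih => exact ih.cons

theorem Hmt.append_left {x : V} (m : List V) {l l' : List V} (h : Hmt X (endp x m) l l') :
    Hmt X x (m ++ l) (m ++ l') := by
  induction m generalizing x with
  | nil => exact h
  | cons v m ih => exact (ih h).cons

theorem Hmt.inv_right {x : V} {l : List V} (h : IsP X.graph.Adj x l) :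
    Hmt X x (l ++ inv x l) [] := by
  induction l generalizing x with
  | nil => exact Hmt.refl _ _
  | cons v l ih =>
    have h1 := (ih h.2).append_right [x]
    rw [List.append_assoc] at h1
    exact (h1.cons (x := x)).trans (Hmt.back h.1)

theorem Hmt.inv_left {x : V} {l : List V} (h : IsP X.graph.Adj x l) :
    Hmt X (endp x l) (inv x l ++ l) [] := by
  induction l generalizing x with
  | nil => exact Hmt.refl _ _
  | cons v l ih =>
    have h1 : Hmt X (endp (endp v l) (inv v l)) (x :: v :: l) l := by
      rw [endp_inv]
      exact Hmt.back h.1.symm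
    have h2 := (Hmt.append_left (inv v l) h1).trans (ih h.2)
    simp only [inv, endp]
    rw [List.append_assoc]
    exact h2

theorem Hmt.mono {Y : Cx V} (hadj : ∀ u v, X.graph.Adj u v → Y.graph.Adj u v)
    (hcell : ∀ x c, X.cell x c → Y.cell x c) {x : V} {l l' : List V} (h : Hmt X x l l') :
    Hmt Y x l l' := by
  induction h with
  | refl => exact Hmt.refl _ _
  | symm _ ih => exact ih.symm
  | trans _ _ ih1 ih2 => exact ih1.trans ih2
  | back h => exact Hmt.back (hadj _ _ h)
  | cell h => exact Hmt.cell (hcell _ _ h)
  | cons _ ih => exact ih.cons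

theorem Hmt.map {Y : Cx W} (f : V → W) (hadj : ∀ u v, X.graph.Adj u v → Y.graph.Adj (f u) (f v))
    (hcell : ∀ x c, X.cell x c → Y.cell (f x) (c.map f)) {x : V} {l l' : List V}
    (h : Hmt X x l l') : Hmt Y (f x) (l.map f) (l'.map f) := by
  induction h with
  | refl => exact Hmt.refl _ _
  | symm _ ih => exact ih.symm
  | trans _ _ ih1 ih2 => exact ih1.trans ih2
  | back h => exact Hmt.back (hadj _ _ h)
  | @cell x c l h =>
    rw [List.map_append]
    exact Hmt.cell (hcell _ _ h)
  | cons _ ih => exact ih.cons

/-- cancellation of a path on the left -/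
theorem Hmt.cancel_left {x : V} {l m m' : List V} (hl : IsP X.graph.Adj x l)
    (h : Hmt X x (l ++ m) (l ++ m')) : Hmt X (endp x l) m m' := by
  have h1 : Hmt X (endp x l) (inv x l ++ (l ++ m)) (inv x l ++ (l ++ m')) := by
    refine Hmt.append_left _ ?_
    rw [endp_inv]
    exact h
  have h2 : ∀ k, Hmt X (endp x l) (inv x l ++ (l ++ k)) k := by
    intro k
    rw [← List.append_assoc]
    exact (Hmt.inv_left hl).append_right k
  exact ((h2 m).symm.trans h1).trans (h2 m')

end homotopy

/-- `X` is nonempty, connected and simply connected -/
def SimplyConnected {V : Type} (X : Cx V) : Prop :=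
  Nonempty V ∧ (∀ x y : V, ∃ l, IsP X.graph.Adj x l ∧ endp x l = y) ∧
    ∀ (x : V) (l : List V), IsP X.graph.Adj x l → endp x l = x → Hmt X x l []

/-- combinatorial maps which are locally injective -/
structure IsImmersion {V W : Type} (Y : Cx W) (X : Cx V) (φ : W → V) : Prop where
  adj : ∀ u v, Y.graph.Adj u v → X.graph.Adj (φ u) (φ v)
  inj : ∀ u v w, Y.graph.Adj u v → Y.graph.Adj u w → φ v = φ w → v = w
  cell : ∀ x c, Y.cell x c → X.cell (φ x) (c.map φ)

/-- an action by automorphisms -/
structure Acts (G : Type) {V : Type} [Group G] [MulAction G V] (X : Cx V) : Prop where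
  adj : ∀ (g : G) u v, X.graph.Adj u v → X.graph.Adj (g • u) (g • v)
  cell : ∀ (g : G) x c, X.cell x c → X.cell (g • x) (c.map (g • ·))

/-- the action is proper and cocompact: finite stabilizers, finitely many orbits of vertices, a
locally finite graph and two-cells of bounded length -/
structure Geometric (G : Type) {V : Type} [Group G] [MulAction G V] (X : Cx V) : Prop where
  stab : ∀ v : V, {g : G | g • v = v}.Finite
  orbits : ∃ S : Set V, S.Finite ∧ ∀ v : V, ∃ g : G, g • v ∈ S
  locFin : ∀ v : V, {w | X.graph.Adj v w}.Finite
  bdd : ∃ n : ℕ, ∀ x c, X.cell x c → c.length ≤ n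

end Pool.Agent.K9h35.SQ
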