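import Pool.Agent.K9h35.SQ.Cover

/-!
# The group of lifts of a group action to the universal cover
-/

set_option autoImplicit false

namespace Pool.Agent.K9h35.SQ

variable {V : Type} (K : Cx V) (x0 : V) (Γ : Type) [Group Γ] [MulAction Γ V]

/-- pairs of an element `γ` and a path from `x0` to `γ • x0` -/
def Rp : Type := {p : Γ × List V // IsP K.graph.Adj x0 p.2 ∧ endp x0 p.2 = p.1 • x0}

/-- homotopy -/
def rpSetoid : Setoid (Rp K x0 Γ) where
  r p q := p.1.1 = q.1.1 ∧ Hmt K x0 p.1.2 q.1.2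
  iseqv := ⟨fun _ => ⟨rfl, Hmt.refl _ _⟩, fun h => ⟨h.1.symm, h.2.symm⟩,
    fun h h' => ⟨h.1.trans h'.1, h.2.trans h'.2⟩⟩

/-- the group of lifts -/
def PG : Type := Quotient (rpSetoid K x0 Γ)

variable {K x0 Γ}

/-- the element of the group given by `γ` and a path -/
def pg (γ : Γ) (w : List V) (h : IsP K.graph.Adj x0 w ∧ endp x0 w = γ • x0) : PG K x0 Γ :=
  Quotient.mk (rpSetoid K x0 Γ) ⟨(γ, w), h⟩

theorem pg_eq {γ γ' : Γ} {w w' : List V} {h h'} :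
    (pg γ w h : PG K x0 Γ) = pg γ' w' h' ↔ γ = γ' ∧ Hmt K x0 w w' :=
  ⟨fun e => Quotient.exact (s := rpSetoid K x0 Γ) e, fun e => Quotient.sound (s := rpSetoid K x0 Γ) e⟩

theorem exists_pg (g : PG K x0 Γ) : ∃ γ w h, g = pg γ w h := by
  induction g using Quotient.inductionOn with
  | h p => exact ⟨p.1.1, p.1.2, p.2, rfl⟩

/-- the translate of a path -/
def tr (γ : Γ) (w : List V) : List V := w.map (γ • ·)

theorem tr_append (γ : Γ) (w w' : List V) : tr γ (w ++ w') = tr γ w ++ tr γ w' := List.map_append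

theorem tr_tr (γ γ' : Γ) (w : List V) : tr γ (tr γ' w) = tr (γ * γ') w := by
  simp [tr, List.map_map, mul_smul, Function.comp_def]

theorem tr_one (w : List V) : tr (1 : Γ) w = w := by simp [tr]

theorem endp_tr (γ : Γ) (x : V) (w : List V) : endp (γ • x) (tr γ w) = γ • endp x w :=
  endp_map (γ • ·) x w

theorem isP_tr (hK : Acts Γ K) (γ : Γ) {x : V} {w : List V} (h : IsP K.graph.Adj x w) :
    IsP K.graph.Adj (γ • x) (tr γ w) := isP_map (γ • ·) (hK.adj γ) x w h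

theorem hmt_tr (hK : Acts Γ K) (γ : Γ) {x : V} {w w' : List V} (h : Hmt K x w w') :
    Hmt K (γ • x) (tr γ w) (tr γ w') := h.map (γ • ·) (hK.adj γ) (hK.cell γ)

/-- multiplication of representatives -/
def rpMul (hK : Acts Γ K) (p q : Rp K x0 Γ) : Rp K x0 Γ :=
  ⟨(p.1.1 * q.1.1, p.1.2 ++ tr p.1.1 q.1.2), by
    obtain ⟨⟨γ, w⟩, h1, h2⟩ := p
    obtain ⟨⟨γ', w'⟩, h3, h4⟩ := q
    simp only at h1 h2 h3 h4 ⊢
    refine ⟨?_, ?_⟩
    · rw [isP_append, h2]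
      exact ⟨h1, isP_tr hK γ h3⟩
    · rw [endp_append, h2, endp_tr, h4, mul_smul]⟩

theorem rpMul_congr (hK : Acts Γ K) (p p' : Rp K x0 Γ) (hp : (rpSetoid K x0 Γ).r p p')
    (q q' : Rp K x0 Γ) (hq : (rpSetoid K x0 Γ).r q q') :
    (rpSetoid K x0 Γ).r (rpMul hK p q) (rpMul hK p' q') := by
  obtain ⟨⟨γ, w⟩, h1, h2⟩ := p
  obtain ⟨⟨γ', w'⟩, h1', h2'⟩ := p'
  obtain ⟨e, hp⟩ := hp
  obtain ⟨eq, hq⟩ := hq
  simp only at e hp h1 h2
  subst e
  refine ⟨by simp only [rpMul]; rw [eq], ?_⟩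
  simp only [rpMul]
  refine (hp.append_right _).trans (Hmt.append_left _ ?_)
  rw [h2']
  exact hmt_tr hK γ hq

/-- multiplication -/
def pgMul (hK : Acts Γ K) : PG K x0 Γ → PG K x0 Γ → PG K x0 Γ :=
  Quotient.map₂ (rpMul hK) fun p p' hp q q' hq => rpMul_congr hK p p' hp q q' hq

theorem pgMul_mk (hK : Acts Γ K) (γ γ' : Γ) (w w' : List V) (h h') :
    ∃ h'', pgMul hK (pg γ w h : PG K x0 Γ) (pg γ' w' h') = pg (γ * γ') (w ++ tr γ w') h'' :=
  ⟨(rpMul hK ⟨(γ, w), h⟩ ⟨(γ', w'), h'⟩).2, rfl⟩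

theorem exists_left_inv (hK : Acts Γ K) (g : PG K x0 Γ) :
    ∃ g', pgMul hK g' g = pg 1 [] ⟨trivial, (one_smul Γ x0).symm⟩ := by
  obtain ⟨γ, w, h, rfl⟩ := exists_pg g
  have h1 : IsP K.graph.Adj x0 (tr γ⁻¹ (inv x0 w)) ∧ endp x0 (tr γ⁻¹ (inv x0 w)) = γ⁻¹ • x0 := by
    have h2 := isP_tr hK γ⁻¹ (isP_inv (A := K.graph.Adj) (fun _ _ h => h.symm) x0 w h.1)
    have h3 := endp_tr γ⁻¹ (endp x0 w) (inv x0 w)
    rw [endp_inv] at h3
    rw [h.2, inv_smul_smul] at h2 h3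
    exact ⟨h2, h3⟩
  refine ⟨pg γ⁻¹ (tr γ⁻¹ (inv x0 w)) h1, ?_⟩
  obtain ⟨h2, e⟩ := pgMul_mk hK γ⁻¹ γ (tr γ⁻¹ (inv x0 w)) w h1 h
  rw [e]
  refine pg_eq.2 ⟨inv_mul_cancel γ, ?_⟩
  rw [← tr_append]
  have h3 := hmt_tr hK γ⁻¹ (Hmt.inv_left h.1)
  rw [h.2, inv_smul_smul] at h3
  exact h3

/-- the group structure -/
noncomputable def pgGroup (hK : Acts Γ K) : Group (PG K x0 Γ) :=
  letI : Mul (PG K x0 Γ) := ⟨pgMul hK⟩
  letI : One (PG K x0 Γ) := ⟨pg 1 [] ⟨trivial, (one_smul Γ x0).symm⟩⟩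
  letI : Inv (PG K x0 Γ) := ⟨fun g => (exists_left_inv hK g).choose⟩
  Group.ofLeftAxioms
    (by
      intro a b c
      obtain ⟨γ, w, h, rfl⟩ := exists_pg a
      obtain ⟨γ', w', h', rfl⟩ := exists_pg b
      obtain ⟨γ'', w'', h'', rfl⟩ := exists_pg c
      change pgMul hK (pgMul hK _ _) _ = pgMul hK _ (pgMul hK _ _)
      obtain ⟨h1, e1⟩ := pgMul_mk hK γ γ' w w' h h'
      obtain ⟨h2, e2⟩ := pgMul_mk hK γ' γ'' w' w'' h' h''
      rw [e1, e2]
      obtain ⟨h3, e3⟩ := pgMul_mk hK (γ * γ') γ'' (w ++ tr γ w') w'' h1 h''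
      obtain ⟨h4, e4⟩ := pgMul_mk hK γ (γ' * γ'') w (w' ++ tr γ' w'') h h2
      rw [e3, e4]
      refine pg_eq.2 ⟨mul_assoc _ _ _, ?_⟩
      rw [tr_append, tr_tr, List.append_assoc]
      exact Hmt.refl _ _)
    (by
      intro a
      obtain ⟨γ, w, h, rfl⟩ := exists_pg a
      change pgMul hK (pg 1 [] _) _ = _
      obtain ⟨h1, e1⟩ := pgMul_mk hK 1 γ [] w ⟨trivial, (one_smul Γ x0).symm⟩ h
      rw [e1]
      refine pg_eq.2 ⟨one_mul _, ?_⟩
      rw [tr_one, List.nil_append]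
      exact Hmt.refl _ _)
    (fun g => (exists_left_inv hK g).choose_spec)

/-- multiplication of representatives with paths -/
def rpSmul (hK : Acts Γ K) (p : Rp K x0 Γ) (l : Pth K x0) : Pth K x0 :=
  ⟨p.1.2 ++ tr p.1.1 l.1, by
    obtain ⟨⟨γ, w⟩, h1, h2⟩ := p
    simp only at h1 h2 ⊢
    rw [isP_append, h2]
    exact ⟨h1, isP_tr hK γ l.2⟩⟩

theorem rpSmul_congr (hK : Acts Γ K) (p p' : Rp K x0 Γ) (hp : (rpSetoid K x0 Γ).r p p')
    (l l' : Pth K x0) (hl : (pthSetoid K x0).r l l') :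
    (pthSetoid K x0).r (rpSmul hK p l) (rpSmul hK p' l') := by
  obtain ⟨⟨γ, w⟩, h1, h2⟩ := p
  obtain ⟨⟨γ', w'⟩, h1', h2'⟩ := p'
  obtain ⟨e, hp⟩ := hp
  simp only at e hp h1 h2
  subst e
  change Hmt K x0 (w ++ tr γ l.1) (w' ++ tr γ l'.1)
  refine (hp.append_right _).trans (Hmt.append_left _ ?_)
  rw [h2']
  exact hmt_tr hK γ hl

/-- the action on the vertices of the universal cover -/
def pgSmul (hK : Acts Γ K) : PG K x0 Γ → UC K x0 → UC K x0 :=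
  Quotient.map₂ (rpSmul hK) fun p p' hp q q' hq => rpSmul_congr hK p p' hp q q' hq

theorem pgSmul_mk (hK : Acts Γ K) (γ : Γ) (w l : List V) (h) (h') :
    ∃ h'', pgSmul hK (pg γ w h : PG K x0 Γ) (mk l h') = mk (w ++ tr γ l) h'' :=
  ⟨(rpSmul hK ⟨(γ, w), h⟩ ⟨l, h'⟩).2, rfl⟩

/-- the action of the group -/
noncomputable def pgAction (hK : Acts Γ K) :
    letI := pgGroup (x0 := x0) hK
    MulAction (PG K x0 Γ) (UC K x0) :=
  letI := pgGroup (x0 := x0) hK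
  { smul := pgSmul hK
    one_smul := by
      intro u
      obtain ⟨l, hl, rfl⟩ := exists_rep u
      change pgSmul hK (pg 1 [] _) _ = _
      obtain ⟨h1, e1⟩ := pgSmul_mk hK 1 [] l ⟨trivial, (one_smul Γ x0).symm⟩ hl
      rw [e1]
      refine mk_eq.2 ?_
      rw [tr_one, List.nil_append]
      exact Hmt.refl _ _
    mul_smul := by
      intro a b u
      obtain ⟨γ, w, h, rfl⟩ := exists_pg a
      obtain ⟨γ', w', h', rfl⟩ := exists_pg b
      obtain ⟨l, hl, rfl⟩ := exists_rep u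
      change pgSmul hK (pgMul hK _ _) _ = pgSmul hK _ (pgSmul hK _ _)
      obtain ⟨h1, e1⟩ := pgMul_mk hK γ γ' w w' h h'
      obtain ⟨h2, e2⟩ := pgSmul_mk hK γ' w' l h' hl
      rw [e1, e2]
      obtain ⟨h3, e3⟩ := pgSmul_mk hK (γ * γ') (w ++ tr γ w') l h1 hl
      obtain ⟨h4, e4⟩ := pgSmul_mk hK γ w (w' ++ tr γ' l) h h2
      rw [e3, e4]
      refine mk_eq.2 ?_
      rw [tr_append, tr_tr, List.append_assoc]
      exact Hmt.refl _ _ }

/-- the homomorphism to `Γ` -/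
noncomputable def pr (hK : Acts Γ K) :
    letI := pgGroup (x0 := x0) hK
    PG K x0 Γ →* Γ :=
  letI := pgGroup (x0 := x0) hK
  { toFun := Quotient.lift (fun p => p.1.1) fun _ _ h => h.1
    map_one' := rfl
    map_mul' := by
      intro a b
      obtain ⟨γ, w, h, rfl⟩ := exists_pg a
      obtain ⟨γ', w', h', rfl⟩ := exists_pg b
      rfl }

theorem fin_smul (hK : Acts Γ K) (g : PG K x0 Γ) (u : UC K x0) :
    fin (pgSmul hK g u) = pr hK g • fin u := by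
  obtain ⟨γ, w, h, rfl⟩ := exists_pg g
  obtain ⟨l, hl, rfl⟩ := exists_rep u
  obtain ⟨h1, e1⟩ := pgSmul_mk hK γ w l h hl
  rw [e1, fin_mk, fin_mk, endp_append, h.2, endp_tr]
  rfl

theorem uadj_smul (hK : Acts Γ K) (g : PG K x0 Γ) {u v : UC K x0} (huv : UAdj u v) :
    UAdj (pgSmul hK g u) (pgSmul hK g v) := by
  obtain ⟨γ, w, h, rfl⟩ := exists_pg g
  obtain ⟨l, y, h1, h2, rfl, rfl⟩ := huv
  obtain ⟨h3, e3⟩ := pgSmul_mk hK γ w l h h1
  obtain ⟨h4, e4⟩ := pgSmul_mk hK γ w (l ++ [y]) h h2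
  rw [e3, e4]
  have e : w ++ tr γ (l ++ [y]) = w ++ tr γ l ++ [γ • y] := by
    rw [tr_append, List.append_assoc]
    rfl
  refine ⟨w ++ tr γ l, γ • y, h3, by rw [← e]; exact h4, rfl, mk_eq.2 ?_⟩
  rw [e]
  exact Hmt.refl _ _

/-- the group acts by automorphisms -/
theorem pg_acts (hK : Acts Γ K) :
    letI := pgGroup (x0 := x0) hK
    letI := pgAction (x0 := x0) hK
    Acts (PG K x0 Γ) (cov K x0) := by
  letI := pgGroup (x0 := x0) hK
  letI := pgAction (x0 := x0) hK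
  have hs : ∀ (g : PG K x0 Γ) (u : UC K x0), g • u = pgSmul hK g u := fun _ _ => rfl
  refine ⟨fun g u v h => ?_, fun g u c h => ?_⟩
  · exact uadj_smul hK g h
  · obtain ⟨h1, h2, h3⟩ := h
    refine ⟨isP_map (g • ·) (fun _ _ h => uadj_smul hK g h) u c h1, ?_, ?_⟩
    · rw [endp_map (g • ·), h2]
    · have e : (c.map (g • ·)).map fin = (c.map fin).map (pr hK g • ·) := by
        rw [List.map_map, List.map_map]
        refine List.map_congr_left fun a _ => ?_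
        exact fin_smul hK g a
      rw [e, hs, fin_smul]
      exact hK.cell _ _ _ h3

/-- stabilizers are mapped injectively -/
theorem pr_stab (hK : Acts Γ K) (u : UC K x0) (g g' : PG K x0 Γ)
    (h : pgSmul hK g u = pgSmul hK g' u) (e : pr hK g = pr hK g') : g = g' := by
  obtain ⟨γ, w, hw, rfl⟩ := exists_pg g
  obtain ⟨γ', w', hw', rfl⟩ := exists_pg g'
  obtain ⟨l, hl, rfl⟩ := exists_rep u
  have e' : γ = γ' := e
  subst e'
  refine pg_eq.2 ⟨rfl, ?_⟩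
  obtain ⟨h1, e1⟩ := pgSmul_mk hK γ w l hw hl
  obtain ⟨h2, e2⟩ := pgSmul_mk hK γ w' l hw' hl
  rw [e1, e2] at h
  have h3 := (mk_eq.1 h).append_right (inv (γ • x0) (tr γ l))
  have h4 : ∀ z : List V, endp x0 z = γ • x0 →
      Hmt K x0 (z ++ tr γ l ++ inv (γ • x0) (tr γ l)) z := by
    intro z hz
    rw [List.append_assoc]
    have h5 : Hmt K (endp x0 z) (tr γ l ++ inv (γ • x0) (tr γ l)) [] := by
      rw [hz]
      exact Hmt.inv_right (isP_tr hK γ hl)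
    have h6 := Hmt.append_left z h5
    rwa [List.append_nil] at h6
  exact ((h4 w hw.2).symm.trans h3).trans (h4 w' hw'.2)

/-- transitivity on the fibres -/
theorem exists_smul (hK : Acts Γ K) (γ : Γ) (u v : UC K x0) (h : γ • fin u = fin v) :
    ∃ g : PG K x0 Γ, pgSmul hK g u = v := by
  obtain ⟨l, hl, rfl⟩ := exists_rep u
  obtain ⟨m, hm, rfl⟩ := exists_rep v
  rw [fin_mk, fin_mk] at h
  have h1 : IsP K.graph.Adj (γ • x0) (tr γ l) := isP_tr hK γ hl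
  have h2 : endp (γ • x0) (tr γ l) = endp x0 m := by rw [endp_tr, h]
  have h3 : IsP K.graph.Adj (endp x0 m) (inv (γ • x0) (tr γ l)) := by
    rw [← h2]
    exact isP_inv (fun _ _ h => h.symm) _ _ h1
  have h4 : endp (endp x0 m) (inv (γ • x0) (tr γ l)) = γ • x0 := by
    rw [← h2, endp_inv]
  refine ⟨pg γ (m ++ inv (γ • x0) (tr γ l)) ⟨(isP_append _ _ _ _).2 ⟨hm, h3⟩, ?_⟩, ?_⟩
  · rw [endp_append, h4]
  · obtain ⟨h5, e5⟩ := pgSmul_mk hK γ (m ++ inv (γ • x0) (tr γ l)) l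
      ⟨(isP_append _ _ _ _).2 ⟨hm, h3⟩, by rw [endp_append, h4]⟩ hl
    rw [e5]
    refine mk_eq.2 ?_
    rw [List.append_assoc]
    have h6 : Hmt K (endp x0 m) (inv (γ • x0) (tr γ l) ++ tr γ l) [] := by
      rw [← h2]
      exact Hmt.inv_left h1
    have h7 := Hmt.append_left m h6
    rwa [List.append_nil] at h7

end Pool.Agent.K9h35.SQ
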