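import Pool.Agent.K9h35.SQ.Grp
import Pool.Agent.Y462.SS.Base

/-!
# Groups acting with finite stabilizers on simply connected complexes
-/

set_option autoImplicit false

namespace Pool.Agent.K9h35.SQ

open Pool.Agent.Y462.SS (Closed)

variable {V : Type} {Γ : Type} [Group Γ] [MulAction Γ V]

/-- the edges of `X` which are translates of pairs in `E` -/
def SAdj (X : Cx V) (Γ : Type) [Group Γ] [MulAction Γ V] (E : Finset (V × V)) (u v : V) : Prop :=
  X.graph.Adj u v ∧ ∃ γ : Γ, (γ • u, γ • v) ∈ E ∨ (γ • v, γ • u) ∈ E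

/-- The subcomplex with these edges and the two-cells of length at most `n` with these edges. -/
def sub (X : Cx V) (Γ : Type) [Group Γ] [MulAction Γ V] (i : Finset (V × V) × ℕ) : Cx V where
  graph :=
    { Adj := SAdj X Γ i.1
      symm := ⟨fun _ _ h => ⟨h.1.symm, h.2.imp fun _ h => h.symm⟩⟩
      loopless := ⟨fun u h => X.graph.loopless.1 u h.1⟩ }
  cell x c := X.cell x c ∧ c.length ≤ i.2 ∧ IsP (SAdj X Γ i.1) x c
  cell_path x c h := ⟨h.2.2, (X.cell_path x c h.1).2⟩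
  cell_rot x v c h := by
    obtain ⟨h1, h2, h3⟩ := h
    refine ⟨X.cell_rot _ _ _ h1, by simpa using h2, ?_⟩
    have h4 : endp v c = x := (X.cell_path _ _ h1).2
    rw [isP_append, h4]
    exact ⟨h3.2, h3.1, trivial⟩
  cell_inv x c h := by
    obtain ⟨h1, h2, h3⟩ := h
    refine ⟨X.cell_inv _ _ h1, by rwa [length_inv], ?_⟩
    have h4 := isP_inv (A := SAdj X Γ i.1) (fun _ _ h => ⟨h.1.symm, h.2.imp fun _ h => h.symm⟩) x c h3
    rwa [(X.cell_path _ _ h1).2] at h4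

theorem sub_adj_mono (X : Cx V) {i j : Finset (V × V) × ℕ} (h : i ≤ j) (u v : V)
    (huv : (sub X Γ i).graph.Adj u v) : (sub X Γ j).graph.Adj u v :=
  ⟨huv.1, huv.2.imp fun _ h1 => h1.imp (fun h2 => h.1 h2) fun h2 => h.1 h2⟩

theorem sub_cell_mono (X : Cx V) {i j : Finset (V × V) × ℕ} (h : i ≤ j) (x : V) (c : List V)
    (hc : (sub X Γ i).cell x c) : (sub X Γ j).cell x c :=
  ⟨hc.1, hc.2.1.trans h.2, isP_mono (sub_adj_mono X h) x c hc.2.2⟩

theorem sub_acts {X : Cx V} (hX : Acts Γ X) (i : Finset (V × V) × ℕ) : Acts Γ (sub X Γ i) := by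
  have hadj : ∀ (g : Γ) (u v : V), SAdj X Γ i.1 u v → SAdj X Γ i.1 (g • u) (g • v) := by
    rintro g u v ⟨h1, γ, h2⟩
    refine ⟨hX.adj g _ _ h1, γ * g⁻¹, ?_⟩
    simpa only [mul_smul, inv_smul_smul] using h2
  refine ⟨hadj, fun g x c h => ⟨hX.cell g _ _ h.1, by simpa using h.2.1, ?_⟩⟩
  exact isP_map (g • ·) (hadj g) x c h.2.2

theorem sub_immersion (X : Cx V) (i : Finset (V × V) × ℕ) : IsImmersion (sub X Γ i) X id where
  adj _ _ h := h.1
  inj _ _ _ _ _ h := h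
  cell _ _ h := by simpa using h.1

/-- a path of `X` is a path in a subcomplex -/
theorem exists_isP (X : Cx V) (Γ : Type) [Group Γ] [MulAction Γ V] (x : V) (l : List V)
    (h : IsP X.graph.Adj x l) (i : Finset (V × V) × ℕ) :
    ∃ j, i ≤ j ∧ IsP (sub X Γ j).graph.Adj x l := by
  classical
  induction l generalizing x with
  | nil => exact ⟨i, le_rfl, trivial⟩
  | cons v l ih =>
    obtain ⟨j, h1, h2⟩ := ih v h.2
    have hj : j ≤ (j.1 ∪ {(x, v)}, j.2) := ⟨Finset.subset_union_left, le_rfl⟩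
    refine ⟨(j.1 ∪ {(x, v)}, j.2), h1.trans hj, ⟨h.1, 1, Or.inl ?_⟩, isP_mono (sub_adj_mono X hj) v l h2⟩
    simp

/-- a homotopy of `X` is a homotopy in a subcomplex -/
theorem exists_hmt (X : Cx V) (Γ : Type) [Group Γ] [MulAction Γ V] {x : V} {l l' : List V}
    (h : Hmt X x l l') : ∀ i : Finset (V × V) × ℕ, ∃ j, i ≤ j ∧ Hmt (sub X Γ j) x l l' := by
  classical
  have hmono : ∀ {i j : Finset (V × V) × ℕ} (_ : i ≤ j) {x : V} {l l' : List V},
      Hmt (sub X Γ i) x l l' → Hmt (sub X Γ j) x l l' := fun h _ _ _ h1 =>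
    h1.mono (sub_adj_mono X h) (sub_cell_mono X h)
  induction h with
  | refl x l => exact fun i => ⟨i, le_rfl, Hmt.refl _ _⟩
  | symm _ ih =>
    intro i
    obtain ⟨j, h1, h2⟩ := ih i
    exact ⟨j, h1, h2.symm⟩
  | trans _ _ ih1 ih2 =>
    intro i
    obtain ⟨j, h1, h2⟩ := ih1 i
    obtain ⟨k, h3, h4⟩ := ih2 j
    exact ⟨k, h1.trans h3, (hmono h3 h2).trans h4⟩
  | @back x v l h =>
    intro i
    obtain ⟨j, h1, h2⟩ := exists_isP X Γ x [v] ⟨h, trivial⟩ i
    exact ⟨j, h1, Hmt.back h2.1⟩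
  | @cell x c l h =>
    intro i
    obtain ⟨j, h1, h2⟩ := exists_isP X Γ x c (X.cell_path _ _ h).1 i
    have hj : j ≤ (j.1, max j.2 c.length) := ⟨le_rfl, le_max_left _ _⟩
    exact ⟨(j.1, max j.2 c.length), h1.trans hj,
      Hmt.cell ⟨h, le_max_right _ _, isP_mono (sub_adj_mono X hj) x c h2⟩⟩
  | cons _ ih =>
    intro i
    obtain ⟨j, h1, h2⟩ := ih i
    exact ⟨j, h1, h2.cons⟩

/-- transport of an element under the action -/
theorem finite_transporter (hst : ∀ v : V, {g : Γ | g • v = v}.Finite) (v a : V) :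
    {γ : Γ | γ • v = a}.Finite := by
  by_cases h : ∃ γ : Γ, γ • v = a
  · obtain ⟨γ0, h0⟩ := h
    refine ((hst v).image fun g => γ0 * g).subset fun γ hγ => ⟨γ0⁻¹ * γ, ?_, by simp⟩
    change (γ0⁻¹ * γ) • v = v
    have h1 : γ • v = a := hγ
    rw [mul_smul, h1, ← h0, inv_smul_smul]
  · refine Set.finite_empty.subset fun γ hγ => h ⟨γ, hγ⟩

theorem sub_locFin (X : Cx V) (hst : ∀ v : V, {g : Γ | g • v = v}.Finite)
    (i : Finset (V × V) × ℕ) (v : V) : {w | (sub X Γ i).graph.Adj v w}.Finite := by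
  have h1 : {w | (sub X Γ i).graph.Adj v w} ⊆
      (⋃ e ∈ (i.1 : Set (V × V)), (fun γ : Γ => γ⁻¹ • e.2) '' {γ : Γ | γ • v = e.1}) ∪
      ⋃ e ∈ (i.1 : Set (V × V)), (fun γ : Γ => γ⁻¹ • e.1) '' {γ : Γ | γ • v = e.2} := by
    rintro w ⟨-, γ, h | h⟩
    · left
      simp only [Set.mem_iUnion]
      exact ⟨_, h, γ, rfl, by simp⟩
    · right
      simp only [Set.mem_iUnion]
      exact ⟨_, h, γ, rfl, by simp⟩
  refine Set.Finite.subset (Set.Finite.union ?_ ?_) h1
  · exact Set.Finite.biUnion i.1.finite_toSet fun e _ => (finite_transporter hst v e.1).image _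
  · exact Set.Finite.biUnion i.1.finite_toSet fun e _ => (finite_transporter hst v e.2).image _

/-- the group of lifts acts properly and cocompactly on the universal cover of the subcomplex -/
theorem pg_geometric {X : Cx V} (hX : Acts Γ X) (hst : ∀ v : V, {g : Γ | g • v = v}.Finite)
    (x0 : V) (i : Finset (V × V) × ℕ) :
    letI := pgGroup (x0 := x0) (sub_acts hX i)
    letI := pgAction (x0 := x0) (sub_acts hX i)
    Geometric (PG (sub X Γ i) x0 Γ) (cov (sub X Γ i) x0) := by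
  classical
  let hK := sub_acts hX i
  let _ := pgGroup (x0 := x0) hK
  let _ := pgAction (x0 := x0) hK
  have hs : ∀ (g : PG (sub X Γ i) x0 Γ) (u : UC (sub X Γ i) x0), g • u = pgSmul hK g u :=
    fun _ _ => rfl
  refine ⟨fun u => ?_, ?_, fun u => ?_, ⟨i.2, fun u c hc => ?_⟩⟩
  · -- stabilizers
    refine Set.Finite.of_finite_image (f := pr hK) ((hst (fin u)).subset ?_) ?_
    · rintro _ ⟨g, hg, rfl⟩
      have h1 : pgSmul hK g u = u := hg
      have h2 := fin_smul hK g u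
      rw [h1] at h2
      exact h2.symm
    · intro g hg g' hg' e
      have h1 : pgSmul hK g u = u := hg
      have h2 : pgSmul hK g' u = u := hg'
      exact pr_stab hK u g g' (h1.trans h2.symm) e
  · -- orbits
    let S0 : Finset V := {x0} ∪ i.1.image Prod.fst ∪ i.1.image Prod.snd
    have h1 : ∀ u : UC (sub X Γ i) x0, ∃ γ : Γ, γ • fin u ∈ S0 := by
      intro u
      obtain ⟨l, hl, rfl⟩ := exists_rep u
      rcases List.eq_nil_or_concat' l with rfl | ⟨l', y, rfl⟩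
      · exact ⟨1, by rw [one_smul]; simp [S0, endp]⟩
      · obtain ⟨-, h2, γ, h3⟩ := isP_snoc.1 hl
        refine ⟨γ, ?_⟩
        rw [fin_mk, endp_snoc]
        rcases h3 with h3 | h3
        · exact Finset.mem_union_right _ (Finset.mem_image.2 ⟨_, h3, rfl⟩)
        · exact Finset.mem_union_left _ (Finset.mem_union_right _ (Finset.mem_image.2 ⟨_, h3, rfl⟩))
    let f : V → UC (sub X Γ i) x0 := fun s =>
      if h : ∃ u : UC (sub X Γ i) x0, ∃ γ : Γ, γ • fin u = s then h.choose else mk [] trivial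
    refine ⟨f '' (S0 : Set V), S0.finite_toSet.image f, fun u => ?_⟩
    obtain ⟨γ, hγ⟩ := h1 u
    have h2 : ∃ u : UC (sub X Γ i) x0, ∃ γ' : Γ, γ' • fin u = γ • fin u := ⟨u, γ, rfl⟩
    have h2' : ∃ u' : UC (sub X Γ i) x0, ∃ γ' : Γ, γ' • fin u' = γ • fin u := ⟨u, γ, rfl⟩
    have h3 : f (γ • fin u) = h2'.choose := dif_pos h2'
    obtain ⟨δ, hδ⟩ := h2'.choose_spec
    obtain ⟨g, hg⟩ := exists_smul hK (δ⁻¹ * γ) u h2'.choose
      (by rw [mul_smul]; exact inv_smul_eq_iff.2 hδ.symm)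
    exact ⟨g, γ • fin u, hγ, h3.trans hg.symm⟩
  · -- local finiteness
    refine Set.Finite.of_finite_image (f := fin) ((sub_locFin X hst i (fin u)).subset ?_) ?_
    · rintro _ ⟨v, hv, rfl⟩
      exact UAdj.fin_adj hv
    · intro v hv w hw e
      exact uadj_inj hv hw e
  · -- length of the cells
    have h1 := hc.2.2.2.1
    simpa using h1

/-- **The colimit.** -/
theorem colim_main {C : ∀ (G : Type) [Group G], Prop} (hC : Closed C)
    (P : ∀ V : Type, Cx V → Prop)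
    (hP : ∀ (V W : Type) (Y : Cx W) (X : Cx V) (φ : W → V), IsImmersion Y X φ → P V X → P W Y)
    (hgeo : ∀ (V : Type) (X : Cx V) (G : Type) [Group G] [MulAction G V], P V X →
      SimplyConnected X → Acts G X → Geometric G X → C G)
    (X : Cx V) (hPX : P V X) (hsc : SimplyConnected X) (hX : Acts Γ X)
    (hst : ∀ v : V, {g : Γ | g • v = v}.Finite) : C Γ := by
  classical
  obtain ⟨⟨x0⟩, hconn, hnull⟩ := hsc
  let grp : ∀ i : Finset (V × V) × ℕ, Group (PG (sub X Γ i) x0 Γ) :=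
    fun i => pgGroup (x0 := x0) (sub_acts hX i)
  -- the transition maps
  have hw : ∀ i j (_ : i ≤ j) (γ : Γ) (w : List V),
      (IsP (sub X Γ i).graph.Adj x0 w ∧ endp x0 w = γ • x0) →
        (IsP (sub X Γ j).graph.Adj x0 w ∧ endp x0 w = γ • x0) :=
    fun i j h γ w h1 => ⟨isP_mono (sub_adj_mono X h) x0 w h1.1, h1.2⟩
  let t : ∀ i j, i ≤ j → PG (sub X Γ i) x0 Γ → PG (sub X Γ j) x0 Γ := fun i j h =>
    Quotient.map (fun p => ⟨p.1, hw i j h p.1.1 p.1.2 p.2⟩)
      fun p q hpq => ⟨hpq.1, hpq.2.mono (sub_adj_mono X h) (sub_cell_mono X h)⟩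
  have ht : ∀ i j (h : i ≤ j) (γ : Γ) (w : List V) (h1), t i j h (pg γ w h1) =
      pg γ w (hw i j h γ w h1) := fun i j h γ w h1 => rfl
  let f : ∀ i j, i ≤ j → (PG (sub X Γ i) x0 Γ →* PG (sub X Γ j) x0 Γ) := fun i j h =>
    { toFun := t i j h
      map_one' := rfl
      map_mul' := by
        intro a b
        obtain ⟨γ, w, h1, rfl⟩ := exists_pg a
        obtain ⟨γ', w', h2, rfl⟩ := exists_pg b
        rfl }
  have hdir : ∀ i j : Finset (V × V) × ℕ, ∃ k, i ≤ k ∧ j ≤ k := fun i j =>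
    ⟨(i.1 ∪ j.1, max i.2 j.2), Prod.le_def.2 ⟨Finset.subset_union_left, le_max_left _ _⟩,
      Prod.le_def.2 ⟨Finset.subset_union_right, le_max_right _ _⟩⟩
  refine hC.colim (Finset (V × V) × ℕ) hdir
    (fun i => PG (sub X Γ i) x0 Γ) f Γ (fun i => pr (sub_acts hX i)) ?_ ?_ ?_ ?_ ?_ ?_
  · intro i h x
    obtain ⟨γ, w, h1, rfl⟩ := exists_pg x
    rfl
  · intro i j k h h' x
    obtain ⟨γ, w, h1, rfl⟩ := exists_pg x
    rfl
  · intro i j h x
    obtain ⟨γ, w, h1, rfl⟩ := exists_pg x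
    rfl
  · intro γ
    obtain ⟨w, h1, h2⟩ := hconn x0 (γ • x0)
    obtain ⟨j, -, h3⟩ := exists_isP X Γ x0 w h1 (∅, 0)
    exact ⟨j, pg γ w ⟨h3, h2⟩, rfl⟩
  · intro i x hx
    obtain ⟨γ, w, h1, rfl⟩ := exists_pg x
    have h2 : γ = 1 := hx
    subst h2
    have h3 : endp x0 w = x0 := by rw [h1.2, one_smul]
    have h4 := hnull x0 w (isP_mono (fun _ _ h => h.1) x0 w h1.1) h3
    obtain ⟨j, h5, h6⟩ := exists_hmt X Γ h4 i
    refine ⟨j, h5, ?_⟩
    exact pg_eq.2 ⟨rfl, h6⟩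
  · intro i
    let _ := pgAction (x0 := x0) (sub_acts hX i)
    refine hgeo (UC (sub X Γ i) x0) (cov (sub X Γ i) x0) (PG (sub X Γ i) x0 Γ) ?_ cov_simplyConnected
      (pg_acts (sub_acts hX i)) (pg_geometric hX hst x0 i)
    exact hP _ _ _ _ fin cov_immersion (hP _ _ _ _ id (sub_immersion X i) hPX)

end Pool.Agent.K9h35.SQ
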