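import Pool.Agent.K9h35.SQ.Two

/-!
# Functions on the complement of a prime divisor
-/

set_option autoImplicit false

namespace Pool.Agent.K9h35.SQ

open WithZero
open Matrix hiding exp_neg exp_zsmul
open Pool.Agent.Y462.SS (Closed)
open Pool.Agent.K9h35.GL

/-- `v` is a discrete valuation of the domain `A`, the nonzero elements have values at least `1`, and
there are only finitely many elements of bounded value. For example the value of a polynomial with
coefficients in a finite field can be `exp` of its total degree. -/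
structure IsFiniteAtInfinity {A : Type} [CommRing A] (v : Valuation A ℤᵐ⁰) : Prop where
  one_le : ∀ a : A, a ≠ 0 → 1 ≤ v a
  finite : ∀ c : ℤ, {a : A | v a ≤ exp c}.Finite
  discrete : ∃ a b : A, a ≠ 0 ∧ v b = v a * exp 1

section

variable {A : Type} [CommRing A] [IsDomain A] {v : Valuation A ℤᵐ⁰}

theorem exists_exp {x : ℤᵐ⁰} (h : 1 ≤ x) : ∃ k : ℤ, 0 ≤ k ∧ x = exp k := by
  have hx : x ≠ 0 := by
    rintro rfl
    exact absurd h (by simp)
  obtain ⟨k, hk⟩ : ∃ k : ℤ, x = exp k := ⟨log x, (exp_log hx).symm⟩
  refine ⟨k, ?_, hk⟩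
  rw [hk, ← exp_zero] at h
  exact exp_le_exp.1 h

theorem finite_mult (hv : IsFiniteAtInfinity v) {f : A} (hf : Prime f) {a : A} (ha : a ≠ 0) :
    FiniteMultiplicity f a := by
  have h1 : ∃ k : ℤ, 1 ≤ k ∧ v f = exp k := by
    obtain ⟨k, hk0, hk⟩ := exists_exp (hv.one_le f hf.ne_zero)
    refine ⟨k, ?_, hk⟩
    by_contra hlt
    have hk1 : k = 0 := by omega
    subst hk1
    have h2 : (Set.range fun n : ℕ => f ^ n).Finite := by
      refine (hv.finite 0).subset ?_
      rintro _ ⟨n, rfl⟩
      change v (f ^ n) ≤ exp 0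
      rw [map_pow, hk, exp_zero, one_pow]
    obtain ⟨m, n, hmn, he⟩ : ∃ m n : ℕ, m < n ∧ f ^ m = f ^ n := by
      by_contra hcon
      push Not at hcon
      refine Set.infinite_range_of_injective (f := fun n : ℕ => f ^ n) (fun m n he => ?_) h2
      rcases lt_trichotomy m n with h | h | h
      · exact absurd he (hcon m n h)
      · exact h
      · exact absurd he.symm (hcon n m h)
    have h3 : f ^ m * 1 = f ^ m * f ^ (n - m) := by
      rw [mul_one, ← pow_add, Nat.add_sub_cancel' hmn.le]
      exact he
    have h4 := mul_left_cancel₀ (pow_ne_zero m hf.ne_zero) h3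
    have h5 : n - m = (n - m - 1) + 1 := by omega
    rw [h5, pow_succ'] at h4
    exact hf.not_isUnit (IsUnit.of_mul_eq_one _ h4.symm)
  obtain ⟨k, hk1, hk⟩ := h1
  obtain ⟨l, hl0, hl⟩ := exists_exp (hv.one_le a ha)
  refine ⟨l.toNat, fun ⟨b, hb⟩ => ?_⟩
  have hb0 : b ≠ 0 := by
    rintro rfl
    exact ha (by rw [hb, mul_zero])
  obtain ⟨m, hm0, hm⟩ := exists_exp (hv.one_le b hb0)
  have h2 : v a = exp (((l.toNat + 1 : ℕ) : ℤ) * k + m) := by
    rw [hb, map_mul, map_pow, hk, hm, exp_add, ← WithZero.exp_nsmul, nsmul_eq_mul]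
  rw [hl] at h2
  have h3 : l = ((l.toNat + 1 : ℕ) : ℤ) * k + m := exp_injective h2
  have h4 : ((l.toNat : ℕ) : ℤ) = l := Int.toNat_of_nonneg hl0
  push_cast at h3
  rw [h4] at h3
  nlinarith

/-- the valuation of a prime element, on the ring -/
noncomputable def fval (hv : IsFiniteAtInfinity v) {f : A} (hf : Prime f) : Valuation A ℤᵐ⁰ := by
  classical
  exact
  { toFun := fun a => if a = 0 then 0 else exp (-(multiplicity f a : ℤ))
    map_zero' := by simp
    map_one' := by
      have : multiplicity f (1 : A) = 0 := by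
        have h := multiplicity_eq_zero (a := f) (b := (1 : A))
        exact h.2 (fun hd => hf.not_isUnit (isUnit_of_dvd_one hd))
      simp [this]
    map_mul' := by
      intro a b
      by_cases ha : a = 0
      · simp [ha]
      by_cases hb : b = 0
      · simp [hb]
      rw [if_neg ha, if_neg hb, if_neg (mul_ne_zero ha hb), multiplicity_mul hf
        (finite_mult hv hf (mul_ne_zero ha hb)), ← exp_add]
      congr 1
      push_cast
      ring
    map_add_le_max' := by
      intro a b
      by_cases ha : a = 0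
      · simp [ha]
      by_cases hb : b = 0
      · simp [hb]
      by_cases hab : a + b = 0
      · simp [hab]
      rw [if_neg ha, if_neg hb, if_neg hab]
      have h1 : min (multiplicity f a) (multiplicity f b) ≤ multiplicity f (a + b) := by
        rw [← (finite_mult hv hf hab).pow_dvd_iff_le_multiplicity]
        exact dvd_add ((pow_dvd_pow f (min_le_left _ _)).trans (pow_multiplicity_dvd f a))
          ((pow_dvd_pow f (min_le_right _ _)).trans (pow_multiplicity_dvd f b))
      rcases le_total (multiplicity f a) (multiplicity f b) with h | h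
      · rw [min_eq_left h] at h1
        exact le_max_of_le_left (exp_le_exp.2 (by omega))
      · rw [min_eq_right h] at h1
        exact le_max_of_le_right (exp_le_exp.2 (by omega)) }

theorem fval_apply (hv : IsFiniteAtInfinity v) {f : A} (hf : Prime f) {a : A} (ha : a ≠ 0) :
    fval hv hf a = exp (-(multiplicity f a : ℤ)) := by
  classical
  exact if_neg ha

/-- extension to the field of fractions -/
noncomputable def ext (w : Valuation A ℤᵐ⁰) (hw : ∀ a : A, a ≠ 0 → w a ≠ 0) :
    Valuation (FractionRing A) ℤᵐ⁰ :=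
  w.extendToLocalization (S := nonZeroDivisors A)
    (fun a ha => fun h => hw a (nonZeroDivisors.ne_zero ha) h) (FractionRing A)

theorem ext_apply (w : Valuation A ℤᵐ⁰) (hw : ∀ a : A, a ≠ 0 → w a ≠ 0) (a : A) :
    ext w hw (algebraMap A (FractionRing A) a) = w a :=
  Valuation.extendToLocalization_apply_map_apply _ _ _ _

theorem v_ne (hv : IsFiniteAtInfinity v) (a : A) (ha : a ≠ 0) : v a ≠ 0 := by
  intro h
  have := hv.one_le a ha
  rw [h] at this
  exact absurd this (by simp)

theorem fval_ne (hv : IsFiniteAtInfinity v) {f : A} (hf : Prime f) (a : A) (ha : a ≠ 0) :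
    fval hv hf a ≠ 0 := by
  rw [fval_apply hv hf ha]
  exact exp_ne_zero

theorem fval_self (hv : IsFiniteAtInfinity v) {f : A} (hf : Prime f) :
    fval hv hf f = exp (-1) := by
  rw [fval_apply hv hf hf.ne_zero, multiplicity_self]
  rfl

theorem dvd_of_fval (hv : IsFiniteAtInfinity v) {f : A} (hf : Prime f) {a : A} {n : ℕ}
    (h : fval hv hf a ≤ exp (-(n : ℤ))) : f ^ n ∣ a := by
  by_cases ha : a = 0
  · rw [ha]; exact dvd_zero _
  · rw [fval_apply hv hf ha] at h
    rw [(finite_mult hv hf ha).pow_dvd_iff_le_multiplicity]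
    have := exp_le_exp.1 h
    omega

section localization

variable (R : Type) [CommRing R] [Algebra A R]

/-- the embedding of the localization in the field of fractions -/
noncomputable def emb (f : A) (hf : f ≠ 0) [IsLocalization.Away f R] : R →+* FractionRing A :=
  IsLocalization.Away.lift f (S := R) (g := algebraMap A (FractionRing A))
    (isUnit_iff_ne_zero.2 fun h => hf ((IsFractionRing.injective A (FractionRing A))
      (by rw [h, map_zero])))

variable {R} {f : A} [IsLocalization.Away f R]

theorem emb_apply (hf : f ≠ 0) (a : A) :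
    emb R f hf (algebraMap A R a) = algebraMap A (FractionRing A) a :=
  IsLocalization.Away.lift_eq _ _ _

theorem algebraMap_inj (hf : f ≠ 0) : Function.Injective (algebraMap A R) := by
  intro a b h
  have h1 := congrArg (emb R f hf) h
  rw [emb_apply, emb_apply] at h1
  exact IsFractionRing.injective A (FractionRing A) h1

theorem exists_mul (f : A) [IsLocalization.Away f R] (r : R) :
    ∃ (n : ℕ) (a : A), r * algebraMap A R f ^ n = algebraMap A R a :=
  IsLocalization.Away.surj f r

theorem f_unit (f : A) [IsLocalization.Away f R] : IsUnit (algebraMap A R f) :=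
  IsLocalization.Away.algebraMap_isUnit f

/-- an element of the localization without a pole -/
theorem integral_of_le (hv : IsFiniteAtInfinity v) (hf : Prime f) (r : R)
    (h : ext (fval hv hf) (fval_ne hv hf) (emb R f hf.ne_zero r) ≤ 1) :
    ∃ a : A, r = algebraMap A R a := by
  obtain ⟨n, b, hb⟩ := exists_mul f r
  have h1 : fval hv hf b ≤ exp (-(n : ℤ)) := by
    rw [← ext_apply (fval hv hf) (fval_ne hv hf), ← emb_apply (R := R) hf.ne_zero, ← hb, map_mul,
      map_mul, map_pow, map_pow, emb_apply, ext_apply, fval_self, ← WithZero.exp_nsmul]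
    have e : exp (-(n : ℤ)) = 1 * exp (n • (-1 : ℤ)) := by
      rw [one_mul]
      congr 1
      simp
    rw [e]
    exact mul_le_mul' h le_rfl
  obtain ⟨c, hc⟩ := dvd_of_fval hv hf h1
  refine ⟨c, ?_⟩
  have h2 := (f_unit (R := R) f).pow n
  refine h2.mul_right_cancel ?_
  rw [hb, hc, map_mul, map_pow, mul_comm]

/-- finiteness of the sets of elements with bounded poles -/
theorem finite_bounded (hv : IsFiniteAtInfinity v) (hf : Prime f) (c : ℤ) :
    {r : R | ext v (v_ne hv) (emb R f hf.ne_zero r) ≤ exp c ∧
      ext (fval hv hf) (fval_ne hv hf) (emb R f hf.ne_zero r) ≤ exp c}.Finite := by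
  obtain ⟨k, hk0, hk⟩ := exists_exp (hv.one_le f hf.ne_zero)
  have h1 := (hv.finite (c + c.toNat * k)).image (algebraMap A R)
  refine Set.Finite.of_finite_image (f := fun r => r * algebraMap A R f ^ c.toNat)
    (h1.subset ?_) ?_
  · rintro _ ⟨r, ⟨hr1, hr2⟩, rfl⟩
    obtain ⟨a, ha⟩ := integral_of_le hv hf (r * algebraMap A R f ^ c.toNat) (by
      rw [map_mul, map_mul, map_pow, map_pow, emb_apply, ext_apply, fval_self, ← WithZero.exp_nsmul]
      have e : (1 : ℤᵐ⁰) = exp (c.toNat : ℤ) * exp (c.toNat • (-1 : ℤ)) := by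
        rw [← exp_add, ← exp_zero]
        congr 1
        simp
      rw [e]
      exact mul_le_mul' (hr2.trans (exp_le_exp.2 (Int.self_le_toNat c))) le_rfl)
    refine ⟨a, ?_, ha.symm⟩
    change v a ≤ exp (c + c.toNat * k)
    rw [← ext_apply v (v_ne hv), ← emb_apply (R := R) hf.ne_zero, ← ha, map_mul, map_mul, map_pow,
      map_pow, emb_apply, ext_apply, hk, ← WithZero.exp_nsmul, exp_add, nsmul_eq_mul]
    exact mul_le_mul' hr1 le_rfl
  · intro r _ s _ h
    exact ((f_unit (R := R) f).pow c.toNat).mul_right_cancel h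

end localization

end

end Pool.Agent.K9h35.SQ
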