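import Pool.Agent.K9h35.SQ.Ring
import Pool.Agent.Y430.SS.Lf

/-!
# `GL_2` of the ring of functions on the complement of a prime divisor
-/

set_option autoImplicit false

namespace Pool.Agent.K9h35.SQ

open WithZero
open Matrix hiding exp_neg exp_zsmul
open Pool.Agent.Y462.SS (Closed)
open Pool.Agent.K9h35.GL

theorem exists_pi {A : Type} [CommRing A] [IsDomain A] {v : Valuation A ℤᵐ⁰}
    (hv : IsFiniteAtInfinity v) : ∃ π : FractionRing A, ext v (v_ne hv) π = exp (-1) := by
  obtain ⟨a, b, ha, hab⟩ := hv.discrete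
  have hb : v b ≠ 0 := by
    rw [hab]
    exact mul_ne_zero (v_ne hv a ha) exp_ne_zero
  refine ⟨algebraMap A (FractionRing A) a / algebraMap A (FractionRing A) b, ?_⟩
  rw [map_div₀, ext_apply, ext_apply, hab, div_eq_iff (mul_ne_zero (v_ne hv a ha) exp_ne_zero),
    mul_comm, mul_assoc, ← exp_add]
  simp

/-- finiteness of sets of matrices -/
theorem finite_matrices {R : Type} [CommRing R] (S : Set R) (hS : S.Finite) :
    {g : GL (Fin 2) R | ∀ j k, (g : Matrix (Fin 2) (Fin 2) R) j k ∈ S}.Finite := by
  have h1 : {M : Matrix (Fin 2) (Fin 2) R | ∀ j k, M j k ∈ S}.Finite := by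
    have h2 := Set.Finite.pi' (ι := Fin 2) (t := fun _ => {w : Fin 2 → R | ∀ k, w k ∈ S})
      fun _ => Set.Finite.pi' fun _ => hS
    exact h2
  refine Set.Finite.of_finite_image (f := fun g : GL (Fin 2) R => (g : Matrix (Fin 2) (Fin 2) R))
    (h1.subset ?_) (fun g _ h _ e => Units.ext e)
  rintro _ ⟨g, hg, rfl⟩
  exact hg

/-- one place at infinity -/
theorem gl_infinity {C : ∀ (G : Type) [Group G], Prop} (hC : Closed C) (hcat : HasCAT0Square C)
    (A : Type) [CommRing A] [IsDomain A] (v : Valuation A ℤᵐ⁰) (hv : IsFiniteAtInfinity v) :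
    C (GL (Fin 2) A) := by
  obtain ⟨π, hπ⟩ := exists_pi hv
  have hR : ∀ r : A, r ≠ 0 → 1 ≤ ext v (v_ne hv) (algebraMap A (FractionRing A) r) := by
    intro r hr
    rw [ext_apply]
    exact hv.one_le r hr
  have hd := val_unit_det (ext v (v_ne hv)) (algebraMap A (FractionRing A)) hR
  refine two_valuations hC hcat (ext v (v_ne hv)) (ext v (v_ne hv)) π hπ π hπ (GL (Fin 2) A)
    (Matrix.GeneralLinearGroup.map (algebraMap A (FractionRing A)))
    (Matrix.GeneralLinearGroup.map (algebraMap A (FractionRing A))) hd hd fun c => ?_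
  refine (finite_matrices _ (hv.finite c)).subset ?_
  rintro γ ⟨h1, -⟩ j k
  have h2 := h1 j k
  have h3 : ((Matrix.GeneralLinearGroup.map (algebraMap A (FractionRing A)) γ :
    GL (Fin 2) (FractionRing A)) : Matrix (Fin 2) (Fin 2) (FractionRing A)) j k =
      algebraMap A (FractionRing A) ((γ : Matrix (Fin 2) (Fin 2) A) j k) := rfl
  rw [h3, ext_apply] at h2
  exact h2

section

variable {A : Type} [CommRing A] [IsDomain A] {v : Valuation A ℤᵐ⁰}
  {R : Type} [CommRing R] [Algebra A R] {f : A} [IsLocalization.Away f R]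

/-- the order of the determinant at `f` -/
noncomputable def ordDet (hv : IsFiniteAtInfinity v) (hf : Prime f) :
    GL (Fin 2) R →* Multiplicative ℤ :=
  (detVal (ext (fval hv hf) (fval_ne hv hf))).comp
    (Matrix.GeneralLinearGroup.map (emb R f hf.ne_zero))

theorem map_det (hf : Prime f) (γ : GL (Fin 2) R) :
    ((Matrix.GeneralLinearGroup.map (emb R f hf.ne_zero) γ : GL (Fin 2) (FractionRing A)) :
      Matrix (Fin 2) (Fin 2) (FractionRing A)).det =
      emb R f hf.ne_zero (γ : Matrix (Fin 2) (Fin 2) R).det :=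
  (RingHom.map_det (emb R f hf.ne_zero) γ.1).symm

/-- both valuations of the determinants are trivial on the kernel of `ordDet` -/
theorem det_one (hv : IsFiniteAtInfinity v) (hf : Prime f) (γ : GL (Fin 2) R)
    (h : ordDet hv hf γ = 1) :
    ext (fval hv hf) (fval_ne hv hf) (emb R f hf.ne_zero (γ : Matrix (Fin 2) (Fin 2) R).det) = 1 ∧
    ext v (v_ne hv) (emb R f hf.ne_zero (γ : Matrix (Fin 2) (Fin 2) R).det) = 1 := by
  have h1 : ext (fval hv hf) (fval_ne hv hf)
      (emb R f hf.ne_zero (γ : Matrix (Fin 2) (Fin 2) R).det) = 1 := by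
    rw [← map_det hf γ]
    exact detVal_eq_one _ _ h
  refine ⟨h1, ?_⟩
  have h2 : ext (fval hv hf) (fval_ne hv hf)
      (emb R f hf.ne_zero ((γ⁻¹ : GL (Fin 2) R) : Matrix (Fin 2) (Fin 2) R).det) = 1 := by
    rw [← map_det hf γ⁻¹]
    exact detVal_eq_one _ _ (by
      have : ordDet hv hf γ⁻¹ = 1 := by rw [map_inv, h, inv_one]
      exact this)
  obtain ⟨a, ha⟩ := integral_of_le hv hf _ h1.le
  obtain ⟨b, hb⟩ := integral_of_le hv hf _ h2.le
  have h3 : (γ : Matrix (Fin 2) (Fin 2) R).det * ((γ⁻¹ : GL (Fin 2) R) : Matrix (Fin 2) (Fin 2) R).det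
      = 1 := by
    rw [← Matrix.det_mul, ← Units.val_mul, mul_inv_cancel]
    simp
  have h4 : a * b = 1 := by
    apply algebraMap_inj (R := R) hf.ne_zero
    rw [map_mul, map_one, ← ha, ← hb, h3]
  have ha0 : a ≠ 0 := by rintro rfl; rw [zero_mul] at h4; exact zero_ne_one h4
  have hb0 : b ≠ 0 := by rintro rfl; rw [mul_zero] at h4; exact zero_ne_one h4
  rw [ha, emb_apply, ext_apply]
  refine le_antisymm ?_ (hv.one_le a ha0)
  calc v a = v a * 1 := (mul_one _).symm
    _ ≤ v a * v b := mul_le_mul_right (hv.one_le b hb0) _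
    _ = 1 := by rw [← map_mul, h4, map_one]

/-- the kernel of `ordDet` -/
theorem ker_mem {C : ∀ (G : Type) [Group G], Prop} (hC : Closed C) (hcat : HasCAT0Square C)
    (hv : IsFiniteAtInfinity v) (hf : Prime f) : C (ordDet (R := R) hv hf).ker := by
  obtain ⟨π, hπ⟩ := exists_pi hv
  have hπ₂ : ext (fval hv hf) (fval_ne hv hf) (algebraMap A (FractionRing A) f) = exp (-1) := by
    rw [ext_apply, fval_self]
  let ρ : (ordDet (R := R) hv hf).ker →* GL (Fin 2) (FractionRing A) :=
    (Matrix.GeneralLinearGroup.map (emb R f hf.ne_zero)).comp (ordDet (R := R) hv hf).ker.subtype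
  refine two_valuations hC hcat (ext v (v_ne hv)) (ext (fval hv hf) (fval_ne hv hf)) π hπ _ hπ₂ _
    ρ ρ (fun γ => ?_) (fun γ => ?_) fun c => ?_
  · have h := (det_one hv hf γ.1 γ.2).2
    rw [← map_det hf γ.1] at h
    exact h
  · have h := (det_one hv hf γ.1 γ.2).1
    rw [← map_det hf γ.1] at h
    exact h
  · refine Set.Finite.of_finite_image (f := Subtype.val)
      ((finite_matrices _ (finite_bounded (R := R) hv hf c)).subset ?_) (fun _ _ _ _ e => Subtype.ext e)
    rintro _ ⟨γ, ⟨h1, h2⟩, rfl⟩ j k
    exact ⟨h1 j k, h2 j k⟩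

/-- the scalar matrix `f` -/
noncomputable def scal (R : Type) [CommRing R] [Algebra A R] (f : A) [IsLocalization.Away f R] :
    GL (Fin 2) R :=
  Units.map (Matrix.scalar (Fin 2) : R →+* Matrix (Fin 2) (Fin 2) R).toMonoidHom (f_unit f).unit

theorem scal_comm (g : GL (Fin 2) R) : Commute g (scal R f) := by
  refine Units.ext ?_
  rw [Units.val_mul, Units.val_mul]
  exact ((Matrix.scalar_commute _ (fun r' => Commute.all _ _) _).symm :
    (g : Matrix (Fin 2) (Fin 2) R) * _ = _ * _)

theorem ordDet_scal (hv : IsFiniteAtInfinity v) (hf : Prime f) :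
    ordDet hv hf (scal R f) = Multiplicative.ofAdd (-2 : ℤ) := by
  have h1 : ((Matrix.GeneralLinearGroup.map (emb R f hf.ne_zero) (scal R f) :
      GL (Fin 2) (FractionRing A)) : Matrix (Fin 2) (Fin 2) (FractionRing A)).det =
        algebraMap A (FractionRing A) f ^ 2 := by
    rw [map_det hf]
    have h2 : ((scal R f : GL (Fin 2) R) : Matrix (Fin 2) (Fin 2) R) =
        Matrix.scalar (Fin 2) (algebraMap A R f) := rfl
    rw [h2, Matrix.scalar_apply, Matrix.det_diagonal, Fin.prod_univ_two, map_mul, emb_apply, sq]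
  have h2 : ext (fval hv hf) (fval_ne hv hf) ((Matrix.GeneralLinearGroup.map (emb R f hf.ne_zero)
      (scal R f) : GL (Fin 2) (FractionRing A)) : Matrix (Fin 2) (Fin 2) (FractionRing A)).det =
      exp (-2) := by
    rw [h1, map_pow, ext_apply, fval_self, ← WithZero.exp_nsmul]
    rfl
  have h3 : (WithZero.unitsWithZeroEquiv (α := Multiplicative ℤ)).symm (ordDet hv hf (scal R f)) =
      (WithZero.unitsWithZeroEquiv (α := Multiplicative ℤ)).symm (Multiplicative.ofAdd (-2 : ℤ)) := by
    refine Units.ext ?_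
    have h4 : (WithZero.unitsWithZeroEquiv (α := Multiplicative ℤ)).symm (ordDet hv hf (scal R f)) =
        Units.map ((ext (fval hv hf) (fval_ne hv hf) : FractionRing A →* ℤᵐ⁰))
          (Matrix.GeneralLinearGroup.det
            (Matrix.GeneralLinearGroup.map (emb R f hf.ne_zero) (scal R f))) :=
      (WithZero.unitsWithZeroEquiv (α := Multiplicative ℤ)).symm_apply_apply _
    rw [h4]
    exact h2
  exact (WithZero.unitsWithZeroEquiv (α := Multiplicative ℤ)).symm.injective h3

/-- **Complements of prime divisors.** -/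
theorem gl_away {C : ∀ (G : Type) [Group G], Prop} (hC : Closed C) (hcat : HasCAT0Square C)
    (hv : IsFiniteAtInfinity v) (hf : Prime f) : C (GL (Fin 2) R) := by
  let N := (ordDet (R := R) hv hf).ker
  let φ : N × Multiplicative ℤ →* GL (Fin 2) R :=
    MonoidHom.noncommCoprod N.subtype (zpowersHom _ (scal R f)) fun a b => by
      have h := scal_comm (R := R) (f := f) a.1
      exact (h.zpow_right (Multiplicative.toAdd b))
  have hφ : ∀ (a : N) (m : ℤ), φ (a, Multiplicative.ofAdd m) = a.1 * scal R f ^ m := fun _ _ => rfl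
  have hord : ∀ (a : N) (m : ℤ), ordDet hv hf (φ (a, Multiplicative.ofAdd m)) =
      Multiplicative.ofAdd (-2 * m) := by
    intro a m
    have h1 : ordDet hv hf a.1 = 1 := a.2
    rw [hφ, map_mul, map_zpow, h1, one_mul, ordDet_scal, ← ofAdd_zsmul]
    congr 1
    rw [smul_eq_mul, mul_comm]
  have hinj : Function.Injective φ := by
    rw [injective_iff_map_eq_one]
    rintro ⟨a, m⟩ h
    have h1 := hord a (Multiplicative.toAdd m)
    have h2 : φ (a, Multiplicative.ofAdd (Multiplicative.toAdd m)) = 1 := h
    rw [h2, map_one] at h1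
    have h3 : (0 : ℤ) = -2 * Multiplicative.toAdd m := congrArg Multiplicative.toAdd h1
    have h4 : Multiplicative.toAdd m = 0 := by omega
    rw [hφ, h4, zpow_zero, mul_one] at h2
    exact Prod.ext (Subtype.ext h2) (Multiplicative.toAdd.injective h4)
  have hprod : C (N × Multiplicative ℤ) := hC.prod _ _ (ker_mem hC hcat hv hf) hC.int
  have hrange : C φ.range :=
    hC.of_injective _ _ (MonoidHom.ofInjective hinj).symm.toMonoidHom
      (MonoidHom.ofInjective hinj).symm.injective hprod
  let par : GL (Fin 2) R →* Multiplicative (ZMod 2) :=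
    (AddMonoidHom.toMultiplicative (Int.castAddHom (ZMod 2))).comp (ordDet hv hf)
  have hfin : par.ker.FiniteIndex := Subgroup.finiteIndex_ker par
  have hle : par.ker ≤ φ.range := by
    intro g hg
    have h1 : ((Multiplicative.toAdd (ordDet hv hf g) : ℤ) : ZMod 2) = 0 := by
      rw [MonoidHom.mem_ker] at hg
      exact congrArg Multiplicative.toAdd hg
    rw [ZMod.intCast_zmod_eq_zero_iff_dvd] at h1
    obtain ⟨m, hm⟩ := h1
    have h2 : ordDet hv hf (g * scal R f ^ m) = 1 := by
      rw [map_mul, map_zpow, ordDet_scal, ← ofAdd_zsmul]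
      have h3 : ordDet hv hf g = Multiplicative.ofAdd (2 * m) := by
        rw [← ofAdd_toAdd (ordDet hv hf g), hm]
        rfl
      rw [h3, ← ofAdd_add, ← ofAdd_zero]
      congr 1
      rw [smul_eq_mul]
      ring
    refine ⟨(⟨g * scal R f ^ m, h2⟩, Multiplicative.ofAdd (-m)), ?_⟩
    rw [hφ]
    change g * scal R f ^ m * scal R f ^ (-m) = g
    rw [mul_assoc, ← _root_.zpow_add]
    simp
  have hfin' : φ.range.FiniteIndex := Subgroup.finiteIndex_of_le hle
  exact hC.finiteIndex _ φ.range hfin' hrange

end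

/-- the total degree of polynomials over a finite field -/
noncomputable def degVal (k : Type) [Field k] (n : ℕ) : Valuation (MvPolynomial (Fin n) k) ℤᵐ⁰ := by
  classical
  exact
  { toFun := fun a => if a = 0 then 0 else exp (a.totalDegree : ℤ)
    map_zero' := by simp
    map_one' := by simp
    map_mul' := by
      intro a b
      by_cases ha : a = 0
      · simp [ha]
      by_cases hb : b = 0
      · simp [hb]
      rw [if_neg ha, if_neg hb, if_neg (mul_ne_zero ha hb),
        MvPolynomial.totalDegree_mul_of_isDomain ha hb, ← exp_add]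
      push_cast
      rfl
    map_add_le_max' := by
      intro a b
      by_cases ha : a = 0
      · simp [ha]
      by_cases hb : b = 0
      · simp [hb]
      by_cases hab : a + b = 0
      · simp [hab]
      rw [if_neg ha, if_neg hb, if_neg hab]
      have h1 := MvPolynomial.totalDegree_add a b
      rcases le_total a.totalDegree b.totalDegree with h | h
      · rw [max_eq_right h] at h1
        exact le_max_of_le_right (exp_le_exp.2 (by omega))
      · rw [max_eq_left h] at h1
        exact le_max_of_le_left (exp_le_exp.2 (by omega)) }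

theorem degVal_apply (k : Type) [Field k] (n : ℕ) {a : MvPolynomial (Fin n) k} (ha : a ≠ 0) :
    degVal k n a = exp (a.totalDegree : ℤ) := if_neg ha

theorem degVal_finite (k : Type) [Field k] [Finite k] (n : ℕ) (hn : 0 < n) :
    IsFiniteAtInfinity (degVal k n) where
  one_le a ha := by
    rw [degVal_apply k n ha, ← exp_zero]
    exact exp_le_exp.2 (by positivity)
  finite c := by
    classical
    have hS : {s : Fin n →₀ ℕ | s.degree ≤ c.toNat}.Finite := by
      refine (Set.finite_Icc (0 : Fin n →₀ ℕ) (Finsupp.equivFunOnFinite.symm fun _ => c.toNat)).subset ?_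
      intro s hs
      refine ⟨zero_le, fun i => ?_⟩
      exact (Finsupp.le_degree i s).trans hs
    let T := hS.toFinset
    refine (Set.finite_range fun g : T → k => ∑ s : T, MvPolynomial.monomial s.1 (g s)).subset ?_
    intro p hp
    refine ⟨fun s => p.coeff s.1, ?_⟩
    by_cases h0 : p = 0
    · simp [h0]
    · have h1 : degVal k n p ≤ exp c := hp
      rw [degVal_apply k n h0] at h1
      have h2 : (p.totalDegree : ℤ) ≤ c := exp_le_exp.1 h1
      have h3 : p.support ⊆ T := by
        intro s hs
        rw [Set.Finite.mem_toFinset]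
        have h4 := MvPolynomial.le_totalDegree hs
        have h5 : s.degree = s.sum fun _ e => e := rfl
        change s.degree ≤ c.toNat
        rw [h5]
        omega
      conv_rhs => rw [p.as_sum]
      simp only
      rw [Finset.sum_coe_sort T fun s => MvPolynomial.monomial s (p.coeff s)]
      symm
      refine Finset.sum_subset h3 fun s _ hs => ?_
      rw [MvPolynomial.notMem_support_iff.1 hs, map_zero]
  discrete := by
    refine ⟨1, MvPolynomial.X ⟨0, hn⟩, one_ne_zero, ?_⟩
    rw [map_one, one_mul, degVal_apply k n (MvPolynomial.X_ne_zero _), MvPolynomial.totalDegree_X]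
    rfl

end Pool.Agent.K9h35.SQ
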