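import Pool.Agent.K9h35.SQ.Main

/-!
# Products of two trees
-/

set_option autoImplicit false

namespace Pool.Agent.K9h35.SQ

/-- a graph as a complex without two-cells -/
def gCx {V : Type} (T : SimpleGraph V) : Cx V where
  graph := T
  cell _ _ := False
  cell_path _ _ h := h.elim
  cell_rot _ _ _ h := h.elim
  cell_inv _ _ h := h.elim

/-- canonical paths from `x` -/
def Can {V : Type} (X : Cx V) (x : V) (can : V → List V) : Prop :=
  can x = [] ∧ (∀ v, IsP X.graph.Adj x (can v) ∧ endp x (can v) = v) ∧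
    ∀ v w, X.graph.Adj v w → Hmt X x (can v ++ [w]) (can w)

theorem simplyConnected_of_can {V : Type} [Nonempty V] (X : Cx V)
    (h : ∀ x, ∃ can, Can X x can) : SimplyConnected X := by
  refine ⟨inferInstance, fun x y => ?_, fun x l hl hx => ?_⟩
  · obtain ⟨can, -, h1, -⟩ := h x
    exact ⟨can y, h1 y⟩
  · obtain ⟨can, h0, h1, h2⟩ := h x
    have h3 : ∀ l : List V, IsP X.graph.Adj x l → Hmt X x l (can (endp x l)) := by
      intro l
      induction l using List.reverseRecOn with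
      | nil =>
        intro _
        have : can (endp x []) = [] := h0
        rw [this]
        exact Hmt.refl _ _
      | append_singleton l y ih =>
        intro hp
        obtain ⟨h4, h5⟩ := isP_snoc.1 hp
        rw [endp_snoc]
        exact ((ih h4).append_right [y]).trans (h2 _ _ h5)
    have h4 := h3 l hl
    rwa [hx, h0] at h4

theorem walk_tail {V : Type} {T : SimpleGraph V} {a v : V} (p : T.Walk a v) :
    IsP T.Adj a p.support.tail ∧ endp a p.support.tail = v := by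
  induction p with
  | nil => exact ⟨trivial, rfl⟩
  | @cons u w v h p ih =>
    have e : (SimpleGraph.Walk.cons h p).support.tail = w :: p.support.tail := by
      rw [SimpleGraph.Walk.support_cons, List.tail_cons]
      exact (SimpleGraph.Walk.cons_tail_support p).symm
    rw [e]
    exact ⟨⟨h, ih.1⟩, ih.2⟩

/-- canonical paths in a tree -/
theorem tree_can {V : Type} {T : SimpleGraph V} (hT : T.IsTree) (a : V) :
    ∃ can, Can (gCx T) a can := by
  classical
  have hex : ∀ v, ∃ p : T.Walk a v, p.IsPath := fun v => (hT.existsUnique_path a v).exists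
  have huniq : ∀ u v (p q : T.Walk u v), p.IsPath → q.IsPath → p = q := fun u v p q hp hq =>
    (hT.existsUnique_path u v).unique hp hq
  choose p hp using hex
  refine ⟨fun v => (p v).support.tail, ?_, fun v => walk_tail (p v), fun v w h => ?_⟩
  · change (p a).support.tail = []
    rw [huniq a a (p a) SimpleGraph.Walk.nil (hp a) SimpleGraph.Walk.IsPath.nil]
    rfl
  · have h0 : T.Adj v w := h
    by_cases hw : w ∈ (p v).support
    · have e1 : (p v).takeUntil w hw = p w := huniq _ _ _ _ ((hp v).takeUntil hw) (hp w)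
      have e2 : (p v).dropUntil w hw = SimpleGraph.Walk.cons h0.symm SimpleGraph.Walk.nil := by
        refine huniq _ _ _ _ ((hp v).dropUntil hw) ?_
        simp [h0.ne.symm]
      have e3 := (p v).take_spec hw
      rw [e1, e2] at e3
      have e4 : (p v).support.tail = (p w).support.tail ++ [v] := by
        rw [← e3, SimpleGraph.Walk.support_append]
        simp only [SimpleGraph.Walk.support_cons, SimpleGraph.Walk.support_nil, List.tail_cons]
        rw [← SimpleGraph.Walk.cons_tail_support (p w)]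
        simp
      change Hmt (gCx T) a ((p v).support.tail ++ [w]) (p w).support.tail
      rw [e4, List.append_assoc]
      have h5 : Hmt (gCx T) (endp a (p w).support.tail) ([v] ++ [w]) [] := by
        rw [(walk_tail (p w)).2]
        exact Hmt.back h0.symm
      have h6 := Hmt.append_left _ h5
      rwa [List.append_nil] at h6
    · have e1 : (p v).concat h0 = p w := huniq _ _ _ _ ((hp v).concat hw h0) (hp w)
      have e2 : (p w).support.tail = (p v).support.tail ++ [w] := by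
        rw [← e1, SimpleGraph.Walk.support_concat]
        rw [← SimpleGraph.Walk.cons_tail_support (p v)]
        simp
      change Hmt (gCx T) a ((p v).support.tail ++ [w]) (p w).support.tail
      rw [e2]
      exact Hmt.refl _ _

section product

variable {V₁ V₂ : Type} (T₁ : SimpleGraph V₁) (T₂ : SimpleGraph V₂)

/-- adjacency in the product -/
def PAdj (x y : V₁ × V₂) : Prop := T₁.Adj x.1 y.1 ∧ x.2 = y.2 ∨ x.1 = y.1 ∧ T₂.Adj x.2 y.2

/-- the squares of the product -/
def PCell (x : V₁ × V₂) (c : List (V₁ × V₂)) : Prop :=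
  ∃ a b, T₁.Adj x.1 a ∧ T₂.Adj x.2 b ∧
    (c = [(a, x.2), (a, b), (x.1, b), x] ∨ c = [(x.1, b), (a, b), (a, x.2), x])

/-- the product of two graphs, a square complex -/
def prodCx : Cx (V₁ × V₂) where
  graph :=
    { Adj := PAdj T₁ T₂
      symm := ⟨fun x y h => h.imp (fun h => ⟨h.1.symm, h.2.symm⟩) fun h => ⟨h.1.symm, h.2.symm⟩⟩
      loopless := ⟨fun x h => h.elim (fun h => T₁.loopless.1 _ h.1) fun h => T₂.loopless.1 _ h.2⟩ }
  cell := PCell T₁ T₂
  cell_path := by
    rintro ⟨x, y⟩ _ ⟨a, b, h1, h2, rfl | rfl⟩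
    · refine ⟨⟨Or.inl ⟨h1, rfl⟩, Or.inr ⟨rfl, h2⟩, Or.inl ⟨h1.symm, rfl⟩, Or.inr ⟨rfl, h2.symm⟩, trivial⟩, rfl⟩
    · refine ⟨⟨Or.inr ⟨rfl, h2⟩, Or.inl ⟨h1, rfl⟩, Or.inr ⟨rfl, h2.symm⟩, Or.inl ⟨h1.symm, rfl⟩, trivial⟩, rfl⟩
  cell_rot := by
    rintro ⟨x, y⟩ v c ⟨a, b, h1, h2, h | h⟩
    · obtain ⟨rfl, rfl⟩ := List.cons.inj h
      exact ⟨x, b, h1.symm, h2, Or.inr rfl⟩
    · obtain ⟨rfl, rfl⟩ := List.cons.inj h
      exact ⟨a, y, h1, h2.symm, Or.inl rfl⟩
  cell_inv := by
    rintro ⟨x, y⟩ _ ⟨a, b, h1, h2, rfl | rfl⟩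
    · exact ⟨a, b, h1, h2, Or.inr rfl⟩
    · exact ⟨a, b, h1, h2, Or.inl rfl⟩

variable {T₁ T₂}

theorem swap_square {x a : V₁} {y b : V₂} (h1 : T₁.Adj x a) (h2 : T₂.Adj y b)
    (m : List (V₁ × V₂)) :
    Hmt (prodCx T₁ T₂) (x, y) ((x, b) :: (a, b) :: m) ((a, y) :: (a, b) :: m) := by
  have hc : (prodCx T₁ T₂).cell (x, y) [(x, b), (a, b), (a, y), (x, y)] :=
    ⟨a, b, h1, h2, Or.inr rfl⟩
  have h3 := Hmt.cell (l := (a, y) :: (a, b) :: m) hc
  have h4 : Hmt (prodCx T₁ T₂) (a, y) ((x, y) :: (a, y) :: (a, b) :: m) ((a, b) :: m) :=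
    Hmt.back (Or.inl ⟨h1.symm, rfl⟩)
  have h5 : Hmt (prodCx T₁ T₂) (a, b) ((a, y) :: (a, b) :: m) m :=
    Hmt.back (Or.inr ⟨rfl, h2.symm⟩)
  have h6 : Hmt (prodCx T₁ T₂) (a, b) ((a, y) :: (x, y) :: (a, y) :: (a, b) :: m) m :=
    (h4.cons).trans h5
  exact ((h6.cons).cons).symm.trans h3

/-- a horizontal edge is pushed through a vertical path -/
theorem push_edge {x a : V₁} (h1 : T₁.Adj x a) (l : List V₂) : ∀ y, IsP T₂.Adj y l →
    Hmt (prodCx T₁ T₂) (x, y) (l.map (fun b => (x, b)) ++ [(a, endp y l)])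
      ((a, y) :: l.map (fun b => (a, b))) := by
  induction l with
  | nil => exact fun y _ => Hmt.refl _ _
  | cons b l ih =>
    intro y h
    have h2 := ih b h.2
    exact (h2.cons).trans (swap_square h1 h.1 _)

theorem prod_can {can₁ : V₁ → List V₁} {can₂ : V₂ → List V₂} {x : V₁} {y : V₂}
    (h1 : Can (gCx T₁) x can₁) (h2 : Can (gCx T₂) y can₂) :
    ∃ can, Can (prodCx T₁ T₂) (x, y) can := by
  have m1 : ∀ {z : V₁} {l l' : List V₁}, Hmt (gCx T₁) z l l' →
      Hmt (prodCx T₁ T₂) (z, y) (l.map fun a => (a, y)) (l'.map fun a => (a, y)) := fun h =>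
    h.map (fun a => (a, y)) (fun u v h => Or.inl ⟨h, rfl⟩) fun _ _ h => False.elim h
  have m2 : ∀ (a : V₁) {z : V₂} {l l' : List V₂}, Hmt (gCx T₂) z l l' →
      Hmt (prodCx T₁ T₂) (a, z) (l.map fun b => (a, b)) (l'.map fun b => (a, b)) := fun a _ _ _ h =>
    h.map (fun b => (a, b)) (fun u v h => Or.inr ⟨rfl, h⟩) fun _ _ h => False.elim h
  have e1 : ∀ l : List V₁, endp (x, y) (l.map fun a => (a, y)) = (endp x l, y) := fun l =>
    endp_map (fun a => (a, y)) x l
  have e2 : ∀ (a : V₁) (z : V₂) (l : List V₂), endp (a, z) (l.map fun b => (a, b)) = (a, endp z l) :=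
    fun a z l => endp_map (fun b => (a, b)) z l
  refine ⟨fun v => (can₁ v.1).map (fun a => (a, y)) ++ (can₂ v.2).map (fun b => (v.1, b)), ?_, ?_, ?_⟩
  · simp only
    rw [h1.1, h2.1]
    rfl
  · rintro ⟨a, b⟩
    obtain ⟨h3, h4⟩ := h1.2.1 a
    obtain ⟨h5, h6⟩ := h2.2.1 b
    simp only
    rw [isP_append, endp_append, e1, h4, e2, h6]
    exact ⟨⟨isP_map (fun a => (a, y)) (fun u v h => Or.inl ⟨h, rfl⟩) x _ h3,
      isP_map (fun b => (a, b)) (fun u v h => Or.inr ⟨rfl, h⟩) y _ h5⟩, rfl⟩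
  · rintro ⟨a, b⟩ ⟨a', b'⟩ (⟨h3, h4⟩ | ⟨h3, h4⟩)
    · simp only at h3 h4
      subst h4
      simp only
      obtain ⟨h5, h6⟩ := h2.2.1 b
      obtain ⟨h7, h8⟩ := h1.2.1 a
      have h9 := push_edge h3 (can₂ b) y h5
      rw [h6] at h9
      have h10 : Hmt (prodCx T₁ T₂) (endp (x, y) ((can₁ a).map fun a => (a, y)))
          ((can₂ b).map (fun b => (a, b)) ++ [(a', b)]) ((a', y) :: (can₂ b).map fun b => (a', b)) := by
        rw [e1, h8]
        exact h9
      have h11 := Hmt.append_left ((can₁ a).map fun a => (a, y)) h10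
      rw [List.append_assoc]
      refine h11.trans ?_
      have h12 := (m1 (h1.2.2 a a' h3)).append_right ((can₂ b).map fun b => (a', b))
      rw [List.map_append, List.append_assoc] at h12
      exact h12
    · simp only at h3 h4
      subst h3
      simp only
      obtain ⟨h7, h8⟩ := h1.2.1 a
      have h9 := m2 a (h2.2.2 b b' h4)
      rw [List.map_append] at h9
      have h10 : Hmt (prodCx T₁ T₂) (endp (x, y) ((can₁ a).map fun a => (a, y)))
          ((can₂ b).map (fun b => (a, b)) ++ [(a, b')]) ((can₂ b').map fun b => (a, b)) := by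
        rw [e1, h8]
        exact h9
      have h11 := Hmt.append_left ((can₁ a).map fun a => (a, y)) h10
      rw [List.append_assoc]
      exact h11

theorem prod_simplyConnected (h1 : T₁.IsTree) (h2 : T₂.IsTree) :
    SimplyConnected (prodCx T₁ T₂) := by
  have := h1.connected.nonempty
  have := h2.connected.nonempty
  refine simplyConnected_of_can _ fun x => ?_
  obtain ⟨can₁, hc₁⟩ := tree_can h1 x.1
  obtain ⟨can₂, hc₂⟩ := tree_can h2 x.2
  exact prod_can hc₁ hc₂

end product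

/-- Square complexes of nonpositive curvature: all two-cells are squares, the corners of the squares
are nondegenerate, a corner belongs to at most one square, and there are no triangles in the links. -/
structure IsNPCSquare {V : Type} (X : Cx V) : Prop where
  len : ∀ x c, X.cell x c → c.length = 4
  nondeg : ∀ x a p b, X.cell x [a, p, b, x] → a ≠ b
  unique : ∀ x a b p q, X.cell x [a, p, b, x] → X.cell x [a, q, b, x] → p = q
  flag : ∀ x a b c p q r, X.cell x [a, p, b, x] → X.cell x [b, q, c, x] → ¬ X.cell x [a, r, c, x]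

theorem npc_immersion (V W : Type) (Y : Cx W) (X : Cx V) (φ : W → V) (h : IsImmersion Y X φ)
    (hX : IsNPCSquare X) : IsNPCSquare Y where
  len x c hc := by simpa using hX.len _ _ (h.cell _ _ hc)
  nondeg x a p b hc hab := hX.nondeg _ _ _ _ (h.cell _ _ hc) (by rw [hab])
  unique x a b p q hp hq := by
    have h1 := hX.unique _ _ _ _ _ (h.cell _ _ hp) (h.cell _ _ hq)
    exact h.inj a p q (Y.cell_path _ _ hp).1.2.1 (Y.cell_path _ _ hq).1.2.1 h1
  flag x a b c p q r h1 h2 h3 :=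
    hX.flag _ _ _ _ _ _ _ (h.cell _ _ h1) (h.cell _ _ h2) (h.cell _ _ h3)

theorem prod_npc {V₁ V₂ : Type} (T₁ : SimpleGraph V₁) (T₂ : SimpleGraph V₂) :
    IsNPCSquare (prodCx T₁ T₂) := by
  have key : ∀ (x a p b : V₁ × V₂), (prodCx T₁ T₂).cell x [a, p, b, x] →
      (T₁.Adj x.1 a.1 ∧ a.2 = x.2 ∧ T₂.Adj x.2 b.2 ∧ b.1 = x.1 ∧ p = (a.1, b.2)) ∨
      (T₁.Adj x.1 b.1 ∧ b.2 = x.2 ∧ T₂.Adj x.2 a.2 ∧ a.1 = x.1 ∧ p = (b.1, a.2)) := by
    rintro x a p b ⟨a', b', h1, h2, h | h⟩
    · simp only [List.cons.injEq, and_true] at h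
      obtain ⟨rfl, rfl, rfl⟩ := h
      exact Or.inl ⟨h1, rfl, h2, rfl, rfl⟩
    · simp only [List.cons.injEq, and_true] at h
      obtain ⟨rfl, rfl, rfl⟩ := h
      exact Or.inr ⟨h1, rfl, h2, rfl, rfl⟩
  refine ⟨?_, ?_, ?_, ?_⟩
  · rintro x c ⟨a, b, -, -, rfl | rfl⟩ <;> rfl
  · intro x a p b h hab
    subst hab
    rcases key _ _ _ _ h with ⟨h1, h2, h3, h4, -⟩ | ⟨h1, h2, h3, h4, -⟩
    · rw [h4] at h1; exact h1.ne rfl
    · rw [h4] at h1; exact h1.ne rfl
  · intro x a b p q h h'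
    rcases key _ _ _ _ h with ⟨h1, h2, h3, h4, rfl⟩ | ⟨h1, h2, h3, h4, rfl⟩ <;>
    rcases key _ _ _ _ h' with ⟨h1', h2', h3', h4', rfl⟩ | ⟨h1', h2', h3', h4', rfl⟩
    · rfl
    · rw [h4] at h1'; exact absurd rfl h1'.ne
    · rw [h4] at h1'; exact absurd rfl h1'.ne
    · rfl
  · intro x a b c p q r h h' h''
    have key' : ∀ (a p b : V₁ × V₂), (prodCx T₁ T₂).cell x [a, p, b, x] →
        (x.1 ≠ a.1 ↔ x.1 = b.1) := by
      intro a p b h
      rcases key _ _ _ _ h with ⟨h1, h2, h3, h4, -⟩ | ⟨h1, h2, h3, h4, -⟩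
      · exact ⟨fun _ => h4.symm, fun _ => h1.ne⟩
      · exact ⟨fun h => absurd h4.symm h, fun h => absurd h h1.ne⟩
    have k1 := key' _ _ _ h
    have k2 := key' _ _ _ h'
    have k3 := key' _ _ _ h''
    tauto

end Pool.Agent.K9h35.SQ
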