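import Pool.Agent.K9h35.SQ.Tree
import Pool.Agent.K9h35.GL.Crit2

/-!
# Matrices of degree two and two valuations
-/

set_option autoImplicit false

namespace Pool.Agent.K9h35.SQ

open WithZero
open Matrix hiding exp_neg exp_zsmul
open Pool.Agent.Y462.SS (Closed)
open Pool.Agent.K9h35.GL

/-- `C` contains the groups which act properly and cocompactly on a simply connected square complex
of nonpositive curvature -/
def HasCAT0Square (C : ∀ (G : Type) [Group G], Prop) : Prop :=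
  ∀ (V : Type) (X : Cx V) (G : Type) [Group G] [MulAction G V], IsNPCSquare X →
    SimplyConnected X → Acts G X → Geometric G X → C G

/-- groups acting with finite stabilizers on square complexes -/
theorem square_main {C : ∀ (G : Type) [Group G], Prop} (hC : Closed C) (hcat : HasCAT0Square C)
    {V : Type} (X : Cx V) (Γ : Type) [Group Γ] [MulAction Γ V] (hX : IsNPCSquare X)
    (hsc : SimplyConnected X) (hact : Acts Γ X) (hst : ∀ v : V, {g : Γ | g • v = v}.Finite) : C Γ :=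
  colim_main hC (fun _ X => IsNPCSquare X) npc_immersion hcat X hX hsc hact hst

/-- **Products of two trees.** -/
theorem two_trees {C : ∀ (G : Type) [Group G], Prop} (hC : Closed C) (hcat : HasCAT0Square C)
    {V₁ V₂ : Type} (T₁ : SimpleGraph V₁) (T₂ : SimpleGraph V₂) (h1 : T₁.IsTree) (h2 : T₂.IsTree)
    (Γ : Type) [Group Γ] [MulAction Γ V₁] [MulAction Γ V₂]
    (ha1 : ∀ (g : Γ) u v, T₁.Adj u v → T₁.Adj (g • u) (g • v))
    (ha2 : ∀ (g : Γ) u v, T₂.Adj u v → T₂.Adj (g • u) (g • v))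
    (hst : ∀ (u : V₁) (v : V₂), {g : Γ | g • u = u ∧ g • v = v}.Finite) : C Γ := by
  refine square_main hC hcat (prodCx T₁ T₂) Γ (prod_npc T₁ T₂) (prod_simplyConnected h1 h2) ⟨?_, ?_⟩ ?_
  · rintro g ⟨u1, u2⟩ ⟨v1, v2⟩ (⟨h3, h4⟩ | ⟨h3, h4⟩)
    · exact Or.inl ⟨ha1 g _ _ h3, congrArg (g • ·) h4⟩
    · exact Or.inr ⟨congrArg (g • ·) h3, ha2 g _ _ h4⟩
  · rintro g ⟨x1, x2⟩ _ ⟨a, b, h3, h4, rfl | rfl⟩
    · exact ⟨g • a, g • b, ha1 g _ _ h3, ha2 g _ _ h4, Or.inl rfl⟩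
    · exact ⟨g • a, g • b, ha1 g _ _ h3, ha2 g _ _ h4, Or.inr rfl⟩
  · rintro ⟨u, v⟩
    refine (hst u v).subset fun g hg => ?_
    exact ⟨congrArg Prod.fst hg, congrArg Prod.snd hg⟩

/-- **Two valuations.** -/
theorem two_valuations {C : ∀ (G : Type) [Group G], Prop} (hC : Closed C) (hcat : HasCAT0Square C)
    {F₁ F₂ : Type} [Field F₁] [Field F₂] (v₁ : Valuation F₁ ℤᵐ⁰) (v₂ : Valuation F₂ ℤᵐ⁰)
    (π₁ : F₁) (hπ₁ : v₁ π₁ = exp (-1)) (π₂ : F₂) (hπ₂ : v₂ π₂ = exp (-1))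
    (Γ : Type) [Group Γ] (ρ₁ : Γ →* GL (Fin 2) F₁) (ρ₂ : Γ →* GL (Fin 2) F₂)
    (hd₁ : ∀ γ : Γ, v₁ ((ρ₁ γ : GL (Fin 2) F₁) : Matrix (Fin 2) (Fin 2) F₁).det = 1)
    (hd₂ : ∀ γ : Γ, v₂ ((ρ₂ γ : GL (Fin 2) F₂) : Matrix (Fin 2) (Fin 2) F₂).det = 1)
    (hfin : ∀ c : ℤ, {γ : Γ |
      (∀ j k, v₁ (((ρ₁ γ : GL (Fin 2) F₁) : Matrix (Fin 2) (Fin 2) F₁) j k) ≤ exp c) ∧
      ∀ j k, v₂ (((ρ₂ γ : GL (Fin 2) F₂) : Matrix (Fin 2) (Fin 2) F₂) j k) ≤ exp c}.Finite) :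
    C Γ := by
  let _ : MulAction Γ (Vt v₁) := MulAction.compHom _ ρ₁
  let _ : MulAction Γ (Vt v₂) := MulAction.compHom _ ρ₂
  refine two_trees hC hcat (tree v₁) (tree v₂) (tree_isTree hπ₁) (tree_isTree hπ₂) Γ
    (fun γ x y hxy => tree_act v₁ _ x y hxy) (fun γ x y hxy => tree_act v₂ _ x y hxy) fun u v => ?_
  induction u using QuotientGroup.induction_on with
  | H g =>
    induction v using QuotientGroup.induction_on with
    | H h =>
      obtain ⟨c, hc⟩ := stab_bound v₁ g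
      obtain ⟨d, hd⟩ := stab_bound v₂ h
      refine (hfin (max c d)).subset ?_
      rintro γ ⟨h1, h2⟩
      exact ⟨fun j k => (hc _ (hd₁ γ) h1 j k).trans (exp_le_exp.2 (le_max_left _ _)),
        fun j k => (hd _ (hd₂ γ) h2 j k).trans (exp_le_exp.2 (le_max_right _ _))⟩

end Pool.Agent.K9h35.SQ
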